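import Pool.Agent.H63.LP.Rk2

/-!
# Rank data of finite dimensional algebras over arbitrary fields
-/

namespace Pool.Agent.H63.LP

open Matrix

section lift

variable {T S : Type} [Ring T] [Ring S] (π : T →+* S)

theorem entries_pow {ι : Type} [Fintype ι] [DecidableEq ι] (J : Ideal T) [J.IsTwoSided]
    (A : Matrix ι ι T)
    (hA : ∀ i j, A i j ∈ J) (k : ℕ) : ∀ i j, (A ^ (k + 1)) i j ∈ J ^ (k + 1) := by
  induction k with
  | zero =>
    intro i j
    rw [zero_add, pow_one, Submodule.pow_one]
    exact hA i j
  | succ k ih =>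
    intro i j
    rw [pow_succ, Matrix.mul_apply, Ideal.IsTwoSided.pow_add, Submodule.pow_one]
    exact Ideal.sum_mem _ fun l _ => Ideal.mul_mem_mul (ih i l) (hA l j)

theorem nilp {ι : Type} [Fintype ι] [DecidableEq ι] (hk : IsNilpotent (RingHom.ker π))
    (A : Matrix ι ι T) (hA : A.map π = 0) : IsNilpotent A := by
  obtain ⟨k, hk⟩ := hk
  refine ⟨k + 1, ?_⟩
  ext i j
  have h1 := entries_pow (RingHom.ker π) A (fun i j => congrFun (congrFun hA i) j) k i j
  rw [Ideal.IsTwoSided.pow_add, hk, zero_mul] at h1
  exact h1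

/-- lifting of idempotent matrices -/
theorem lift_idem (hs : Function.Surjective π) (hk : IsNilpotent (RingHom.ker π))
    {ι : Type} [Fintype ι] (N : Matrix ι ι S) (hN : N * N = N) :
    ∃ M : Matrix ι ι T, M * M = M ∧ M.map π = N := by
  classical
  obtain ⟨M, h1, h2⟩ := exists_isIdempotentElem_eq_of_ker_isNilpotent (π.mapMatrix (m := ι))
    (fun x hx => nilp π hk x hx) N (by
      choose g hg using hs
      exact ⟨N.map g, by ext i j; exact hg _⟩) hN
  exact ⟨M, h1, h2⟩

/-- Idempotent matrices with equivalent images are equivalent. -/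
theorem lift_eqv (hs : Function.Surjective π) (hk : IsNilpotent (RingHom.ker π))
    {ι κ : Type} [Fintype ι] [Fintype κ] (M : Matrix ι ι T) (N : Matrix κ κ T)
    (hM : M * M = M) (hN : N * N = N) (x : Matrix ι κ S) (y : Matrix κ ι S)
    (hxy : x * y = M.map π) (hyx : y * x = N.map π) :
    ∃ (x' : Matrix ι κ T) (y' : Matrix κ ι T), x' * y' = M ∧ y' * x' = N := by
  classical
  have hs' := hs
  choose g hg using hs'
  let x0 : Matrix ι κ T := x.map g
  let y0 : Matrix κ ι T := y.map g
  have hx0 : x0.map π = x := by ext i j; exact hg _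
  have hy0 : y0.map π = y := by ext i j; exact hg _
  let x1 := M * x0 * N
  let y1 := N * y0 * M
  have mx : M * x1 = x1 := by
    change M * (M * x0 * N) = M * x0 * N
    rw [← Matrix.mul_assoc, ← Matrix.mul_assoc, hM]
  have xn : x1 * N = x1 := by
    change (M * x0 * N) * N = M * x0 * N
    rw [Matrix.mul_assoc, hN]
  have ny : N * y1 = y1 := by
    change N * (N * y0 * M) = N * y0 * M
    rw [← Matrix.mul_assoc, ← Matrix.mul_assoc, hN]
  have ym : y1 * M = y1 := by
    change (N * y0 * M) * M = N * y0 * M
    rw [Matrix.mul_assoc, hM]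
  have hMM : M.map π * M.map π = M.map π := by rw [← Matrix.map_mul, hM]
  have hNN : N.map π * N.map π = N.map π := by rw [← Matrix.map_mul, hN]
  have e1 : (x1 * y1).map π = M.map π := by
    change (M * x0 * N * (N * y0 * M)).map π = M.map π
    simp only [Matrix.map_mul, hx0, hy0]
    calc M.map π * x * N.map π * (N.map π * y * M.map π)
        = M.map π * (x * ((N.map π * N.map π) * (y * M.map π))) := by simp only [Matrix.mul_assoc]
      _ = M.map π := by
        rw [hNN, ← hyx]
        calc M.map π * (x * (y * x * (y * M.map π)))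
            = M.map π * ((x * y) * (x * y) * M.map π) := by simp only [Matrix.mul_assoc]
          _ = M.map π := by rw [hxy, hMM, hMM, hMM]
  have e2 : (y1 * x1).map π = N.map π := by
    change (N * y0 * M * (M * x0 * N)).map π = N.map π
    simp only [Matrix.map_mul, hx0, hy0]
    calc N.map π * y * M.map π * (M.map π * x * N.map π)
        = N.map π * (y * ((M.map π * M.map π) * (x * N.map π))) := by simp only [Matrix.mul_assoc]
      _ = N.map π := by
        rw [hMM, ← hxy]
        calc N.map π * (y * (x * y * (x * N.map π)))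
            = N.map π * ((y * x) * (y * x) * N.map π) := by simp only [Matrix.mul_assoc]
          _ = N.map π := by rw [hyx, hNN, hNN, hNN]
  let c := M - x1 * y1
  have hc0 : c.map π = 0 := by
    change (M - x1 * y1).map π = 0
    rw [Matrix.map_sub _ (map_sub π), e1, sub_self]
  obtain ⟨k, hck⟩ := nilp π hk c hc0
  have mc : M * c = c := by
    change M * (M - x1 * y1) = M - x1 * y1
    rw [mul_sub, hM, ← Matrix.mul_assoc, mx]
  have cm : c * M = c := by
    change (M - x1 * y1) * M = M - x1 * y1
    rw [sub_mul, hM, Matrix.mul_assoc, ym]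
  let G : Matrix ι ι T := ∑ i ∈ Finset.range k, c ^ i
  have hG : (1 - c) * G = 1 := by
    have := mul_neg_geom_sum c k
    rw [hck, sub_zero] at this
    exact this
  let u := M * G
  have hxy1 : x1 * y1 = M - c := by
    change x1 * y1 = M - (M - x1 * y1)
    rw [sub_sub_cancel]
  have h3 : x1 * y1 * u = M := by
    rw [hxy1]
    have : (M - c) * (M * G) = M * ((1 - c) * G) := by
      rw [← Matrix.mul_assoc, sub_mul, hM, cm, ← Matrix.mul_assoc, mul_sub, mul_one, mc]
    change (M - c) * (M * G) = M
    rw [this, hG, mul_one]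
  have hu : u.map π = M.map π := by
    have hG' : G.map π = (1 : Matrix ι ι S) + (G.map π - 1) := by abel
    have h4 : ((1 - c) * G).map π = G.map π := by
      rw [Matrix.map_mul, Matrix.map_sub _ (map_sub π), hc0, sub_zero,
        Matrix.map_one π (map_zero π) (map_one π), one_mul]
    rw [hG, Matrix.map_one π (map_zero π) (map_one π)] at h4
    change (M * G).map π = M.map π
    rw [Matrix.map_mul, ← h4, mul_one]
  let y2 := y1 * u
  have h5 : x1 * y2 = M := by
    change x1 * (y1 * u) = M
    rw [← Matrix.mul_assoc, h3]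
  let N1 := y2 * x1
  have n1 : N1 * N1 = N1 := by
    change y2 * x1 * (y2 * x1) = y2 * x1
    calc y2 * x1 * (y2 * x1) = y2 * ((x1 * y2) * x1) := by simp only [Matrix.mul_assoc]
      _ = y2 * x1 := by rw [h5, mx]
  have n2 : N * N1 = N1 := by
    change N * (y1 * u * x1) = y1 * u * x1
    calc N * (y1 * u * x1) = (N * y1) * u * x1 := by simp only [Matrix.mul_assoc]
      _ = _ := by rw [ny]
  have n3 : N1 * N = N1 := by
    change y2 * x1 * N = y2 * x1
    rw [Matrix.mul_assoc, xn]
  have n4 : (N - N1).map π = 0 := by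
    have : N1.map π = N.map π := by
      change (y1 * u * x1).map π = N.map π
      rw [Matrix.map_mul, Matrix.map_mul, hu, ← Matrix.map_mul, ym, ← Matrix.map_mul, e2]
    rw [Matrix.map_sub _ (map_sub π), this, sub_self]
  have n5 : (N - N1) * (N - N1) = N - N1 := by
    rw [sub_mul, mul_sub, mul_sub, hN, n1, n2, n3, sub_self, sub_zero]
  have n6 : N - N1 = 0 := by
    obtain ⟨m, hm⟩ := nilp π hk _ n4
    have h6 : ∀ j : ℕ, (N - N1) ^ (j + 1) = N - N1 := by
      intro j
      induction j with
      | zero => rw [zero_add, pow_one]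
      | succ j ih => rw [pow_succ, ih, n5]
    rw [← h6 m, pow_succ, hm, zero_mul]
  exact ⟨x1, y2, h5, (sub_eq_zero.mp n6).symm⟩

end lift

/-- Transport of additive functions on idempotents to a quotient by a nilpotent ideal. -/
theorem exists_push {T S : Type} [Ring T] [Ring S] (π : T →+* S) (hs : Function.Surjective π)
    (hk : IsNilpotent (RingHom.ker π)) (θ : ∀ (ι : Type) [Fintype ι], Matrix ι ι T → ℕ)
    (h : IsDim θ) : ∃ θ' : (∀ (ι : Type) [Fintype ι], Matrix ι ι S → ℕ), IsDim θ' ∧
      ∀ (ι : Type) [Fintype ι] (M : Matrix ι ι T), M * M = M → θ' ι (M.map π) = θ ι M := by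
  classical
  have key : ∀ (ι κ : Type) [Fintype ι] [Fintype κ] (M : Matrix ι ι T) (N : Matrix κ κ T),
      M * M = M → N * N = N → ∀ (x : Matrix ι κ S) (y : Matrix κ ι S), x * y = M.map π →
      y * x = N.map π → θ ι M = θ κ N := by
    intro ι κ _ _ M N hM hN x y hxy hyx
    obtain ⟨x', y', h1, h2⟩ := lift_eqv π hs hk M N hM hN x y hxy hyx
    exact h.eqv ι κ M N x' y' hM hN h1 h2
  let L : ∀ (ι : Type) [Fintype ι], Matrix ι ι S → Matrix ι ι T := fun ι _ N =>
    if hN : N * N = N then (lift_idem π hs hk N hN).choose else 0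
  have hL : ∀ (ι : Type) [Fintype ι] (N : Matrix ι ι S), N * N = N →
      L ι N * L ι N = L ι N ∧ (L ι N).map π = N := by
    intro ι _ N hN
    have : L ι N = (lift_idem π hs hk N hN).choose := dif_pos hN
    rw [this]
    exact (lift_idem π hs hk N hN).choose_spec
  refine ⟨fun ι _ N => θ ι (L ι N), ⟨?_, ?_⟩, ?_⟩
  · intro ι κ _ _ M N x y hM hN hxy hyx
    exact key ι κ _ _ (hL ι M hM).1 (hL κ N hN).1 x y (by rw [(hL ι M hM).2, hxy])
      (by rw [(hL κ N hN).2, hyx])
  · intro ι κ _ _ M N hM hN
    have h1 : (fromBlocks M 0 0 N) * (fromBlocks M 0 0 N) = fromBlocks M 0 0 N := by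
      rw [fromBlocks_multiply]
      simp [hM, hN]
    have h2 : (fromBlocks (L ι M) 0 0 (L κ N)) * (fromBlocks (L ι M) 0 0 (L κ N)) =
        fromBlocks (L ι M) 0 0 (L κ N) := by
      rw [fromBlocks_multiply]
      simp [(hL ι M hM).1, (hL κ N hN).1]
    have h3 : (fromBlocks (L ι M) 0 0 (L κ N)).map π = fromBlocks M 0 0 N := by
      rw [fromBlocks_map, (hL ι M hM).2, (hL κ N hN).2]
      congr 1 <;> exact Matrix.map_zero π (map_zero π)
    change θ (ι ⊕ κ) (L (ι ⊕ κ) (fromBlocks M 0 0 N)) = θ ι (L ι M) + θ κ (L κ N)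
    rw [← h.add ι κ _ _ (hL ι M hM).1 (hL κ N hN).1]
    refine key _ _ _ _ (hL _ _ h1).1 h2 (fromBlocks M 0 0 N) (fromBlocks M 0 0 N) ?_ ?_
    · rw [(hL _ _ h1).2, h1]
    · rw [h3, h1]
  · intro ι _ M hM
    have h1 : M.map π * M.map π = M.map π := by rw [← Matrix.map_mul, hM]
    refine key _ _ _ _ (hL _ _ h1).1 hM (M.map π) (M.map π) ?_ h1
    rw [(hL _ _ h1).2, h1]

/-- Rank data lift from quotients by nilpotent ideals. -/
theorem RankData.lift {T S : Type} [Ring T] [Ring S] (π : T →+* S) (hs : Function.Surjective π)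
    (hk : IsNilpotent (RingHom.ker π)) {n : ℕ} (R : RankData S n) : Nonempty (RankData T n) := by
  classical
  have h1 : ∀ a, ∃ e : T, e * e = e ∧ π e = R.p a := by
    intro a
    obtain ⟨M, hM, h2⟩ := lift_idem π hs hk (one1 (R.p a)) (by rw [one1_mul, R.p_idem])
    refine ⟨M () (), ?_, congrFun (congrFun h2 ()) ()⟩
    have := congrFun (congrFun hM ()) ()
    rw [Matrix.mul_apply] at this
    simpa using this
  choose p hp1 hp2 using h1
  have hone : ∀ a, (one1 (p a)).map π = one1 (R.p a) := by
    intro a
    ext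
    exact hp2 a
  refine ⟨⟨fun a ι _ M => R.r a ι (M.map π), fun a => (R.dim a).pull π.toNonUnitalRingHom, p, hp1,
    fun a b => ?_, fun θ h ι _ M hM => ?_⟩⟩
  · change R.r b Unit ((one1 (p a)).map π) = _
    rw [hone, R.dual]
  · obtain ⟨θ', h', hθ⟩ := exists_push π hs hk θ h
    have h2 := R.span θ' h' ι (M.map π) (by rw [← Matrix.map_mul, hM])
    rw [hθ ι M hM] at h2
    rw [h2]
    refine Finset.sum_congr rfl fun a _ => ?_
    rw [← hone, hθ Unit (one1 (p a)) (by rw [one1_mul, hp1])]

/-- Every finite dimensional algebra over a field (every artinian ring) has rank data. -/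
theorem exists_rankData (T : Type) [Ring T] [IsArtinianRing T] :
    ∃ n, Nonempty (RankData T n) := by
  classical
  have : IsSemiprimaryRing T := inferInstance
  obtain ⟨n, D, d, _, hd, ⟨e⟩⟩ := IsSemisimpleRing.exists_ringEquiv_pi_matrix_divisionRing
    (T ⧸ Ring.jacobson T)
  have := hd
  let π : T →+* (Π i, Matrix (Fin (d i)) (Fin (d i)) (D i)) :=
    (e : _ →+* _).comp (Ideal.Quotient.mk (Ring.jacobson T))
  have hπs : Function.Surjective π := e.surjective.comp Ideal.Quotient.mk_surjective
  have hker : RingHom.ker π = Ring.jacobson T := by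
    ext x
    rw [RingHom.mem_ker]
    change e (Ideal.Quotient.mk (Ring.jacobson T) x) = 0 ↔ _
    rw [map_eq_zero_iff e e.injective, Ideal.Quotient.eq_zero_iff_mem]
  refine ⟨n, RankData.lift π hπs ?_ (RankData.prod fun i => (RankData.division (D i)).matrix (d i))⟩
  rw [hker]
  exact IsSemiprimaryRing.isNilpotent

/-- Rank data of a finite product of copies of a field. -/
noncomputable def RankData.pi (K : Type) [Field K] (V : Type) [Fintype V] [DecidableEq V]
    {n : ℕ} (σ : Fin n ≃ V) : RankData (V → K) n where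
  r a ι _ M := rk ι (M.map (fun f => f (σ a)))
  dim a := rk_dim.pull (Pi.evalRingHom (fun _ : V => K) (σ a)).toNonUnitalRingHom
  p a := Pi.single (σ a) 1
  p_idem a := by rw [← Pi.single_mul, mul_one]
  dual a b := by
    split_ifs with h
    · subst h
      have h1 : (one1 (Pi.single (σ a) 1 : V → K)).map (fun f => f (σ a)) = one1 1 := by
        ext
        exact Pi.single_eq_same _ _
      rw [h1, rk_one]
    · have h1 : (one1 (Pi.single (σ a) 1 : V → K)).map (fun f => f (σ b)) = 0 := by
        ext
        exact Pi.single_eq_of_ne (fun e => h (σ.injective e).symm) _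
      rw [h1]
      exact rk_dim.zero Unit
  span θ h ι _ M hM := by
    let s : V → (K →ₙ+* (V → K)) := fun i =>
      { toFun := fun c => (Pi.single i c : V → K)
        map_mul' := fun a b => Pi.single_mul (α := fun _ : V => K) i a b
        map_zero' := Pi.single_zero (M := fun _ : V => K) i
        map_add' := fun a b => Pi.single_add (f := fun _ : V => K) i a b }
    let N : V → Matrix ι ι K := fun i =>
      M.map (Pi.evalRingHom (fun _ : V => K) i).toNonUnitalRingHom
    have hN : ∀ i, N i * N i = N i := by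
      intro i
      rw [← Matrix.map_mul, hM]
    have h1 : M = ∑ i, (N i).map (s i) := by
      refine Matrix.ext fun a b => ?_
      rw [Matrix.sum_apply]
      exact (Finset.univ_sum_single (M a b)).symm
    have h2 : θ ι M = ∑ i, θ ι ((N i).map (s i)) := by
      conv_lhs => rw [h1]
      rw [h.sum]
      · intro i
        rw [← Matrix.map_mul, hN]
      · intro i j hij
        refine Matrix.ext fun a b => ?_
        rw [Matrix.mul_apply]
        refine Finset.sum_eq_zero fun c _ => ?_
        change (Pi.single i (N i a c) : V → K) * Pi.single j (N j c b) = 0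
        funext k
        rw [Pi.mul_apply, Pi.zero_apply]
        by_cases hk : k = i
        · subst hk
          rw [Pi.single_eq_of_ne hij, mul_zero]
        · rw [Pi.single_eq_of_ne hk, zero_mul]
    rw [h2, ← Equiv.sum_comp σ]
    refine Finset.sum_congr rfl fun i _ => ?_
    exact rk_span _ (h.pull (s (σ i))) ι (N (σ i)) (hN (σ i))

/-- Transport of rank data along an isomorphism. -/
def RankData.map {T T' : Type} [Ring T] [Ring T'] {n : ℕ} (R : RankData T n) (e : T ≃+* T') :
    RankData T' n where
  r a ι _ M := R.r a ι (M.map e.symm)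
  dim a := (R.dim a).pull (e.symm : T' →+* T).toNonUnitalRingHom
  p a := e (R.p a)
  p_idem a := by rw [← map_mul, R.p_idem]
  dual a b := by
    rw [← R.dual a b]
    congr 1
    ext
    exact e.symm_apply_apply _
  span θ h ι _ M hM := by
    have h1 := R.span _ (h.pull (e : T →+* T').toNonUnitalRingHom) ι (M.map e.symm)
      (by rw [← Matrix.map_mul, hM])
    have h2 : (M.map e.symm).map (e : T →+* T').toNonUnitalRingHom = M := by
      ext i j
      exact e.apply_symm_apply _
    simp only [h2] at h1
    rw [h1]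
    refine Finset.sum_congr rfl fun a _ => ?_
    congr 1

end Pool.Agent.H63.LP
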