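import Pool.Graph.R_seed8.Y83.Ex5
import Pool.Agent.H63.LP.Rk3

/-!
# The chain argument over arbitrary fields
-/

namespace Pool.Agent.H63.LP

open Matrix Pool.Agent.Y83

variable {G : FGraph} {B : Type} [Ring B] (η : CKF G B) {K : Type} [Field K] [Algebra K B]

/-- the compression as a multiplicative additive map -/
def tmh {T' T : Subalgebra K B} (h : ∀ t ∈ T', ∀ e f, η.w e * t * η.z f ∈ T) :
    T' →ₙ+* Matrix G.E G.E T where
  toFun := η.tm h
  map_mul' := η.tm_mul h
  map_zero' := η.tm_zero h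
  map_add' x y := by
    ext e f
    simp [CKF.tm, mul_add, add_mul]

theorem tm_idem {T' T : Subalgebra K B} (h : ∀ t ∈ T', ∀ e f, η.w e * t * η.z f ∈ T) (t : T')
    (ht : t * t = t) : η.tm h t * η.tm h t = η.tm h t := by rw [← η.tm_mul, ht]

/-- A weighted matrix represents the action of the family on the rank data of `T`. -/
def Rep (T : Subalgebra K B) (X : WM) : Prop :=
  ∃ (h : ∀ t ∈ T, ∀ e f, η.w e * t * η.z f ∈ T) (D : RankData T X.n),
    (∀ a b, X.A a b = D.r b G.E (η.tm h (D.p a))) ∧ ∀ a, X.u a = D.r a Unit (one1 1)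

theorem exists_rep (T : Subalgebra K B)
    [FiniteDimensional K T] (h : ∀ t ∈ T, ∀ e f, η.w e * t * η.z f ∈ T) :
    ∃ X : WM, Rep η T X := by
  have : IsArtinianRing T := IsArtinianRing.of_finite K T
  obtain ⟨n, ⟨D⟩⟩ := exists_rankData T
  exact ⟨⟨n, fun a b => D.r b G.E (η.tm h (D.p a)), fun a => D.r a Unit (one1 1)⟩, h, D,
    fun _ _ => rfl, fun _ => rfl⟩

/-- The step lemma. -/
theorem Rep.step {T T' : Subalgebra K B} (hTT' : T ≤ T')
    (h' : ∀ t ∈ T', ∀ e f, η.w e * t * η.z f ∈ T) {X Y : WM}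
    (hX : Rep η T X) (hY : Rep η T' Y) : X.Step Y := by
  obtain ⟨h1, D, hA, hu⟩ := hX
  obtain ⟨h2, D', hA', hu'⟩ := hY
  let i : T →ₙ+* T' := ((Subalgebra.inclusion hTT' : T →ₐ[K] T') : T →+* T').toNonUnitalRingHom
  have hinc : ∀ t : T, η.tm h' (i t) = η.tm h1 t := fun t => rfl
  have hinc' : ∀ t : T', (η.tm h' t).map i = η.tm h2 t := fun t => rfl
  let R : Matrix (Fin X.n) (Fin Y.n) ℕ := fun a b => D'.r b Unit (one1 (i (D.p a)))
  let S : Matrix (Fin Y.n) (Fin X.n) ℕ := fun b a => D.r a G.E (η.tm h' (D'.p b))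
  have hone : ∀ c : T, (one1 c).map i = one1 (i c) := fun c => rfl
  refine ⟨R, S, ?_, ?_, ?_⟩
  · ext a a'
    rw [hA, ← hinc, Matrix.mul_apply]
    -- the function `θ` on `T'`
    have hθ := ((D.dim a').comp G.E).pull (tmh η h')
    have h3 := D'.span _ hθ Unit (one1 (i (D.p a))) (by rw [one1_mul, ← map_mul, D.p_idem])
    have h4 : ∀ t : T', t * t = t → D.r a' (Unit × G.E)
        (Matrix.comp Unit Unit G.E G.E T ((one1 t).map (tmh η h'))) = D.r a' G.E (η.tm h' t) := by
      intro t ht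
      have h5 := (D.dim a').reindex (Equiv.punitProd G.E).symm (η.tm h' t) (tm_idem η h' t ht)
      rw [← h5]
      rfl
    rw [← h4 _ (by rw [← map_mul, D.p_idem])]
    refine h3.trans ?_
    refine Finset.sum_congr rfl fun b _ => ?_
    rw [h4 _ (D'.p_idem b)]
  · ext b b'
    rw [hA', ← hinc', Matrix.mul_apply]
    exact D.span _ ((D'.dim b').pull i) G.E (η.tm h' (D'.p b)) (tm_idem η h' _ (D'.p_idem b))
  · funext b
    have h3 := D.span _ ((D'.dim b).pull i) Unit (one1 1) (by rw [one1_mul, one_mul])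
    have e1 : (one1 (1 : T)).map i = one1 (1 : T') := by
      ext; rfl
    simp only [e1] at h3
    rw [hu', h3]
    simp only [Matrix.vecMul, dotProduct]
    refine Finset.sum_congr rfl fun a _ => ?_
    rw [hu]
    rfl

/-- The chain theorem. -/
theorem chain (T : ℕ → Subalgebra K B)
    (hfin : ∀ i, FiniteDimensional K (T i)) (hmono : ∀ i, T i ≤ T (i + 1))
    (h0 : ∀ t ∈ T 0, ∀ e f, η.w e * t * η.z f ∈ T 0)
    (h : ∀ i, ∀ t ∈ T (i + 1), ∀ e f, η.w e * t * η.z f ∈ T i)
    {X : WM} (hX : Rep η (T 0) X) (i : ℕ) :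
    ∀ {Y : WM}, Rep η (T i) Y → Relation.EqvGen WM.Step X Y := by
  induction i with
  | zero =>
    intro Y hY
    exact Relation.EqvGen.rel _ _ (hX.step η le_rfl h0 hY)
  | succ i ih =>
    intro Y hY
    have hc : ∀ t ∈ T i, ∀ e f, η.w e * t * η.z f ∈ T i := by
      cases i with
      | zero => exact h0
      | succ i => exact fun t ht e f => hmono i (h i t ht e f)
    have := hfin i
    obtain ⟨Z, hZ⟩ := exists_rep η (T i) hc
    exact Relation.EqvGen.trans _ _ _ (ih hZ)
      (Relation.EqvGen.rel _ _ (hZ.step η (hmono i) (h i) hY))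

variable (K) in
theorem rep_zero (hq : ∀ v, η.q v ≠ 0) {n : ℕ} (σ : Fin n ≃ G.V) :
    Rep η (η.lev K 0) (G.wm σ) := by
  have hz : ∀ t ∈ η.lev K 0, ∀ e f, η.w e * t * η.z f ∈ η.lev K 0 := η.wz_levS_zero K
  refine ⟨hz, (RankData.pi K G.V σ).map (η.lev0Equiv K hq : (G.V → K) ≃+* η.lev K 0), ?_, ?_⟩
  · intro a b
    have h1 : η.tm hz (η.lev0Equiv K hq (Pi.single (σ a) (1 : K))) =
        (Matrix.diagonal fun e => if G.s e = σ a then (Pi.single (G.r e) (1 : K) : G.V → K)
          else 0).map (η.lev0Equiv K hq) := by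
      ext e f
      rw [Matrix.map_apply, η.lev0Equiv_coe K hq]
      change η.w e * η.qlin K (Pi.single (σ a) (1 : K)) * η.z f = _
      rw [η.qlin_single K, η.w_q]
      by_cases hef : e = f
      · subst hef
        rw [Matrix.diagonal_apply_eq]
        split_ifs
        · rw [η.ck1, if_pos rfl, η.qlin_single K]
        · rw [zero_mul, map_zero]
      · rw [Matrix.diagonal_apply_ne _ hef, map_zero]
        split_ifs
        · rw [η.ck1, if_neg hef]
        · rw [zero_mul]
    change (Finset.univ.filter fun e => G.s e = σ a ∧ G.r e = σ b).card =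
      (RankData.pi K G.V σ).r b G.E ((η.tm hz (η.lev0Equiv K hq (Pi.single (σ a) (1 : K)))).map
        (η.lev0Equiv K hq).symm)
    have h2 : (η.tm hz (η.lev0Equiv K hq (Pi.single (σ a) (1 : K)))).map
        (η.lev0Equiv K hq).symm = Matrix.diagonal fun e => if G.s e = σ a then
          (Pi.single (G.r e) (1 : K) : G.V → K) else 0 := by
      rw [h1]
      ext1 e f
      exact (η.lev0Equiv K hq).symm_apply_apply _
    rw [h2, ((RankData.pi K G.V σ).dim b).diagonal]
    · rw [Finset.card_filter]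
      refine Finset.sum_congr rfl fun e _ => ?_
      by_cases he : G.s e = σ a
      · rw [if_pos he]
        obtain ⟨c, hc⟩ := σ.surjective (G.r e)
        have h3 := (RankData.pi K G.V σ).dual c b
        change (RankData.pi K G.V σ).r b Unit (one1 (Pi.single (σ c) 1)) = _ at h3
        rw [← hc, h3]
        by_cases hcb : c = b
        · subst hcb
          rw [if_pos ⟨he, rfl⟩, if_pos rfl]
        · rw [if_neg (fun h => hcb (σ.injective h.2)), if_neg hcb]
      · rw [if_neg he, if_neg (fun h => he h.1)]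
        exact (((RankData.pi K G.V σ).dim b).zero Unit).symm
    · intro e
      split_ifs
      · rw [← Pi.single_mul, mul_one]
      · rw [mul_zero]
  · intro a
    change 1 = (RankData.pi K G.V σ).r a Unit ((one1 (1 : η.lev K 0)).map
      (η.lev0Equiv K hq).symm)
    have h1 : (one1 (1 : η.lev K 0)).map (η.lev0Equiv K hq).symm =
        one1 (1 : G.V → K) := by
      ext1 i j
      exact map_one (η.lev0Equiv K hq).symm
    rw [h1]
    change 1 = rk Unit ((one1 (1 : G.V → K)).map (fun f => f (σ a)))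
    have h2 : (one1 (1 : G.V → K)).map (fun f => f (σ a)) = one1 (1 : K) := rfl
    rw [h2, rk_one]

/-- If two families are related through a subalgebra, they have the same representing weighted
matrices on it. -/
theorem Rep.transfer {H : FGraph} {γ : CKF H B} {η : CKF G B} {T : Subalgebra K B} {X : WM}
    (h : ∀ t ∈ T, ∀ e f, γ.w e * t * γ.z f ∈ T)
    (h1 : ∀ e f, γ.w e * η.z f ∈ T) (h2 : ∀ e f, η.w e * γ.z f ∈ T)
    (hX : Rep η T X) : Rep γ T X := by
  obtain ⟨h', D, hA, hu⟩ := hX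
  refine ⟨h, D, fun a b => ?_, hu⟩
  rw [hA]
  have ht := D.p_idem a
  generalize D.p a = t at ht
  let m : Matrix H.E G.E T := fun e f => ⟨γ.w e * η.z f, h1 e f⟩
  let m' : Matrix G.E H.E T := fun e f => ⟨η.w e * γ.z f, h2 e f⟩
  have key : ∀ {P Q R : FGraph} (α : CKF P B) (β : CKF Q B) (δ : CKF R B) (e : P.E) (f : R.E)
      (a b : B), ∑ l, α.w e * a * β.z l * (β.w l * b * δ.z f) = α.w e * (a * b) * δ.z f := by
    intro P Q R α β δ e f a b
    calc _ = α.w e * a * (∑ l, β.z l * β.w l) * (b * δ.z f) := by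
          rw [Finset.mul_sum, Finset.sum_mul]
          refine Finset.sum_congr rfl fun l _ => ?_
          simp only [mul_assoc]
      _ = _ := by
          rw [β.sum_zw, mul_one]
          simp only [mul_assoc]
  have ht' : (t : B) * t = t := congrArg Subtype.val ht
  have hx : ∀ f e', ((m' * γ.tm h t) f e' : B) = η.w f * t * γ.z e' := by
    intro f e'
    rw [Matrix.mul_apply, AddSubmonoidClass.coe_finsetSum]
    have := key η γ γ f e' 1 t
    simp only [mul_one, one_mul] at this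
    exact this
  have hy : ∀ e f, ((γ.tm h t * m) e f : B) = γ.w e * t * η.z f := by
    intro e f
    rw [Matrix.mul_apply, AddSubmonoidClass.coe_finsetSum]
    have := key γ γ η e f t 1
    simp only [mul_one] at this
    exact this
  refine (D.dim b).eqv G.E H.E _ _ (m' * γ.tm h t) (γ.tm h t * m) (tm_idem η h' t ht)
    (tm_idem γ h t ht) ?_ ?_
  · ext f f'
    rw [Matrix.mul_apply, AddSubmonoidClass.coe_finsetSum]
    simp only [MulMemClass.coe_mul, hx, hy]
    rw [key, ht']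
    rfl
  · ext e e'
    rw [Matrix.mul_apply, AddSubmonoidClass.coe_finsetSum]
    simp only [MulMemClass.coe_mul, hx, hy]
    rw [key, ht']
    rfl

/-- Two families with intertwined filtrations: the graphs are strong shift equivalent. -/
theorem sse_of_families {H : FGraph} (γ : CKF G B) (η : CKF H B)
    (hγ : ∀ v, γ.q v ≠ 0) (hη : ∀ v, η.q v ≠ 0) (n M : ℕ)
    (h1 : ∀ v, η.q v ∈ γ.lev K n)
    (h2 : ∀ e f, γ.w e * η.z f ∈ γ.lev K n) (h3 : ∀ e f, η.w e * γ.z f ∈ γ.lev K n)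
    (h4 : γ.lev K n ≤ η.lev K M)
    {a b : ℕ} (σ : Fin a ≃ G.V) (ρ : Fin b ≃ H.V) :
    Relation.EqvGen WM.Step (G.wm σ) (H.wm ρ) := by
  have hc : ∀ t ∈ γ.lev K n, ∀ e f, γ.w e * t * γ.z f ∈ γ.lev K n := (γ.levS_aux K n).1
  obtain ⟨Y, hY⟩ := exists_rep γ (γ.lev K n) hc
  -- the chain for `γ`
  have c1 : Relation.EqvGen WM.Step (G.wm σ) Y :=
    chain γ (fun i => γ.lev K i) (fun i => inferInstance) (fun i => γ.levS_mono K (Nat.le_succ i))
      (γ.wz_levS_zero K) (fun i t ht e f => γ.wz_mem K i t ht e f) (rep_zero γ K hγ σ) n hY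
  -- the chain for `η`
  have hd : ∀ t ∈ γ.lev K n, ∀ e f, η.w e * t * η.z f ∈ γ.lev K n := by
    intro t ht e f
    rw [γ.sum_decomp t, Finset.mul_sum, Finset.sum_mul]
    refine Subalgebra.sum_mem _ fun e' _ => ?_
    rw [Finset.mul_sum, Finset.sum_mul]
    refine Subalgebra.sum_mem _ fun f' _ => ?_
    have e1 : η.w e * (γ.z e' * (γ.w e' * t * γ.z f') * γ.w f') * η.z f =
        (η.w e * γ.z e') * (γ.w e' * t * γ.z f') * (γ.w f' * η.z f) := by
      simp only [mul_assoc]
    rw [e1]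
    exact mul_mem (mul_mem (h3 _ _) (hc t ht _ _)) (h2 _ _)
  have c2 : Relation.EqvGen WM.Step (H.wm ρ) Y := by
    have hT0 : γ.lev K n ⊓ η.lev K 0 = η.lev K 0 := by
      refine inf_eq_right.mpr ?_
      have : η.levS K 0 ≤ γ.levS K n := by
        refine Submodule.span_le.mpr ?_
        rintro _ ⟨v, rfl⟩
        exact h1 v
      exact this
    have hTM : γ.lev K n ⊓ η.lev K M = γ.lev K n := inf_eq_left.mpr h4
    refine chain η (fun i => γ.lev K n ⊓ η.lev K i) (fun i => ?_)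
      (fun i => inf_le_inf_left _ (η.levS_mono K (Nat.le_succ i)))
      (fun t ht e f => ⟨hd t ht.1 e f, η.wz_levS_zero K t ht.2 e f⟩)
      (fun i t ht e f => ⟨hd t ht.1 e f, η.wz_mem K i t ht.2 e f⟩)
      (X := H.wm ρ) ?_ M (Y := Y) ?_
    · have : FiniteDimensional K (Subalgebra.toSubmodule (γ.lev K n)) := γ.levS_fin K n
      exact Submodule.finiteDimensional_of_le
        (S₁ := Subalgebra.toSubmodule (γ.lev K n ⊓ η.lev K i))
        (S₂ := Subalgebra.toSubmodule (γ.lev K n)) inf_le_left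
    · change Rep η (γ.lev K n ⊓ η.lev K 0) (H.wm ρ)
      rw [hT0]
      exact rep_zero η K hη ρ
    · change Rep η (γ.lev K n ⊓ η.lev K M) Y
      rw [hTM]
      exact hY.transfer hd h3 h2
  exact Relation.EqvGen.trans _ _ _ c1 (Relation.EqvGen.symm _ _ c2)

/-- Two exhausting families: the graphs are strong shift equivalent. -/
theorem sse_of_exhausting {H : FGraph} (B0 : Submodule K B)
    (γ : CKF G B) (η : CKF H B) (hγ : ∀ v, γ.q v ≠ 0) (hη : ∀ v, η.q v ≠ 0)
    (eγ : ∀ b ∈ B0, ∃ i, b ∈ γ.levS K i) (eη : ∀ b ∈ B0, ∃ i, b ∈ η.levS K i)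
    (m0 : ∀ v, γ.q v ∈ B0) (m1 : ∀ v, η.q v ∈ B0)
    (m2 : ∀ e f, γ.w e * η.z f ∈ B0) (m3 : ∀ e f, η.w e * γ.z f ∈ B0)
    (m4 : ∀ b ∈ B0, ∀ e f, γ.z e * b * γ.w f ∈ B0)
    {a b : ℕ} (σ : Fin a ≃ G.V) (ρ : Fin b ≃ H.V) :
    Relation.EqvGen WM.Step (G.wm σ) (H.wm ρ) := by
  have d1 : ∀ v, ∃ i, η.q v ∈ γ.levS K i := fun v => eγ _ (m1 v)
  have d2 : ∀ e f, ∃ i, γ.w e * η.z f ∈ γ.levS K i := fun e f => eγ _ (m2 e f)
  have d3 : ∀ e f, ∃ i, η.w e * γ.z f ∈ γ.levS K i := fun e f => eγ _ (m3 e f)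
  choose i1 hi1 using d1
  choose i2 hi2 using d2
  choose i3 hi3 using d3
  let n : ℕ := (Finset.univ.sup i1) ⊔ (Finset.univ.sup fun p : G.E × H.E => i2 p.1 p.2) ⊔
    (Finset.univ.sup fun p : H.E × G.E => i3 p.1 p.2)
  have n1 : ∀ v, i1 v ≤ n := fun v =>
    le_trans (Finset.le_sup (Finset.mem_univ v)) (le_trans le_sup_left le_sup_left)
  have n2 : ∀ e f, i2 e f ≤ n := fun e f =>
    le_trans (Finset.le_sup (f := fun p : G.E × H.E => i2 p.1 p.2) (Finset.mem_univ (e, f)))
      (le_trans le_sup_right le_sup_left)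
  have n3 : ∀ e f, i3 e f ≤ n := fun e f =>
    le_trans (Finset.le_sup (f := fun p : H.E × G.E => i3 p.1 p.2) (Finset.mem_univ (e, f)))
      le_sup_right
  obtain ⟨M, hM⟩ : ∃ M, γ.levS K n ≤ η.levS K M := by
    refine η.exists_lev_of_fg B0 eη ?_ (γ.levS_le_of B0 m0 m4 n)
    have := γ.levS_fin K n
    exact Module.Finite.iff_fg.mp this
  exact sse_of_families γ η hγ hη n M
    (fun v => γ.levS_mono K (n1 v) (hi1 v))
    (fun e f => γ.levS_mono K (n2 e f) (hi2 e f))
    (fun e f => γ.levS_mono K (n3 e f) (hi3 e f)) hM σ ρ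

end Pool.Agent.H63.LP
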