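import Pool.Agent.H63.LP.Ch

set_option linter.unusedSectionVars false
set_option linter.unusedVariables false

/-!
# Multiplicities of standard idempotents and the class homomorphism over arbitrary fields

The second part follows the file `Lk6` of the library, without the assumption on the
characteristic.
-/

namespace Pool.Agent.H63.LP

open Matrix Pool.Agent.Y83 Pool.Agent.Y83.LPA

noncomputable section

section levels

variable {G : FGraph} {B : Type} [Ring B] (η : CKF G B) (K : Type) [Field K] [Algebra K B]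

theorem sum_edges (c : G.V → ℕ) (u : G.V) :
    ∑ e, (if G.s e = u then c (G.r e) else 0) = ∑ x, G.adj u x * c x := by
  have h1 : ∀ x, G.adj u x * c x = ∑ e, if G.s e = u ∧ G.r e = x then c x else 0 := by
    intro x
    change (Finset.univ.filter fun e => G.s e = u ∧ G.r e = x).card * c x = _
    rw [← Finset.sum_filter, Finset.sum_const, smul_eq_mul]
  rw [Finset.sum_congr rfl fun x _ => h1 x, Finset.sum_comm]
  refine Finset.sum_congr rfl fun e _ => ?_
  by_cases he : G.s e = u
  · rw [if_pos he, Finset.sum_eq_single (G.r e)]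
    · rw [if_pos ⟨he, rfl⟩]
    · intro x _ hx
      rw [if_neg fun h => hx h.2.symm]
    · intro h; exact absurd (Finset.mem_univ _) h
  · rw [if_neg he]
    refine (Finset.sum_eq_zero fun x _ => ?_).symm
    rw [if_neg fun h => he h.1]

theorem q_mem_lev (j : ℕ) (u : G.V) : η.q u ∈ η.lev K j :=
  η.levS_mono K (Nat.zero_le j) (η.q_mem_levS_zero K u)

/-- A rank function on the `j`-th level with prescribed values at the vertex idempotents. -/
theorem exists_dim (hq : ∀ v, η.q v ≠ 0) (v : G.V) (j : ℕ) :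
    ∃ θ : (∀ (ι : Type) [Fintype ι], Matrix ι ι (η.lev K j) → ℕ), IsDim θ ∧
      ∀ u, θ Unit (one1 ⟨η.q u, q_mem_lev η K j u⟩) = (G.adj ^ j) u v := by
  induction j with
  | zero =>
    let f : η.lev K 0 →ₙ+* K := ((Pi.evalRingHom (fun _ : G.V => K) v).comp
      ((η.lev0Equiv K hq).symm : η.lev K 0 →+* (G.V → K))).toNonUnitalRingHom
    refine ⟨_, rk_dim.pull f, fun u => ?_⟩
    have h1 : (⟨η.q u, q_mem_lev η K 0 u⟩ : η.lev K 0) = η.lev0Equiv K hq (Pi.single u 1) :=
      Subtype.ext (η.qlin_single K u).symm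
    have h2 : (one1 (⟨η.q u, q_mem_lev η K 0 u⟩ : η.lev K 0)).map f =
        one1 ((Pi.single u 1 : G.V → K) v) := by
      ext
      change (η.lev0Equiv K hq).symm (⟨η.q u, q_mem_lev η K 0 u⟩ : η.lev K 0) v =
        (Pi.single u 1 : G.V → K) v
      rw [h1]
      exact congrFun ((η.lev0Equiv K hq).symm_apply_apply (Pi.single u 1)) v
    simp only [h2]
    rw [pow_zero]
    by_cases h : u = v
    · subst h
      rw [Pi.single_eq_same, Matrix.one_apply_eq]
      exact rk_one
    · rw [Pi.single_eq_of_ne (Ne.symm h), Matrix.one_apply_ne h]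
      exact rk_dim.zero Unit
  | succ j ih =>
    obtain ⟨θ, h, hθ⟩ := ih
    have hw : ∀ t ∈ η.lev K (j + 1), ∀ e f, η.w e * t * η.z f ∈ η.lev K j := fun t ht e f =>
      η.wz_mem K j t ht e f
    refine ⟨_, (h.comp G.E).pull (tmh η hw), fun u => ?_⟩
    let Q : η.lev K (j + 1) := ⟨η.q u, q_mem_lev η K (j + 1) u⟩
    have hQ : Q * Q = Q := Subtype.ext (by
      change η.q u * η.q u = η.q u
      rw [η.qq, if_pos rfl])
    have h1 : η.tm hw Q = Matrix.diagonal fun e => if G.s e = u then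
        (⟨η.q (G.r e), q_mem_lev η K j (G.r e)⟩ : η.lev K j) else 0 := by
      ext e f
      change η.w e * η.q u * η.z f = _
      rw [η.w_q]
      by_cases hef : e = f
      · subst hef
        rw [Matrix.diagonal_apply_eq]
        split_ifs
        · rw [η.ck1, if_pos rfl]
        · rw [zero_mul]; rfl
      · rw [Matrix.diagonal_apply_ne _ hef]
        split_ifs
        · rw [η.ck1, if_neg hef]; rfl
        · rw [zero_mul]; rfl
    have h2 := h.reindex (Equiv.punitProd G.E).symm (η.tm hw Q) (tm_idem η hw Q hQ)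
    change θ (Unit × G.E) (Matrix.comp Unit Unit G.E G.E _ ((one1 Q).map (tmh η hw))) = _
    refine (show _ = _ from h2).trans ?_
    rw [h1, h.diagonal]
    · rw [pow_succ', Matrix.mul_apply, ← sum_edges]
      refine Finset.sum_congr rfl fun e _ => ?_
      split_ifs
      · exact hθ _
      · exact h.zero Unit
    · intro e
      split_ifs
      · exact Subtype.ext (by
          change η.q _ * η.q _ = η.q _
          rw [η.qq, if_pos rfl])
      · rw [mul_zero]

end levels

variable (K : Type) [Field K] {G : FGraph} (hG : G.NoSinks)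

/-- Equivalent standard idempotents of the same degree have eventually the same multiplicities. -/
theorem cnt_of_MvN' {ι κ : Type} [Fintype ι] [DecidableEq ι] [Fintype κ] [DecidableEq κ]
    (α : ι → G.V) (β : κ → G.V) (k : ℤ)
    (h : MvN (grading K G) (fun _ : ι => k) (Est K hG α) (fun _ : κ => k) (Est K hG β)) :
    ∃ j, cnt α ᵥ* (G.adj ^ j) = cnt β ᵥ* (G.adj ^ j) := by
  obtain ⟨x, y, hx, hy, hxy, hyx⟩ := h
  have h1 : ∀ i p, ∃ j, x i p ∈ (ck K hG).levS K j := by
    intro i p
    apply exists_lev_of_mem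
    have := hx i p
    rw [sub_self] at this
    exact this
  have h2 : ∀ p i, ∃ j, y p i ∈ (ck K hG).levS K j := by
    intro i p
    apply exists_lev_of_mem
    have := hy i p
    rw [sub_self] at this
    exact this
  choose j1 hj1 using h1
  choose j2 hj2 using h2
  let J : ℕ := (Finset.univ.sup fun p : ι × κ => j1 p.1 p.2) ⊔
    (Finset.univ.sup fun p : κ × ι => j2 p.1 p.2)
  have g1 : ∀ i p, x i p ∈ (ck K hG).levS K J := fun i p =>
    (ck K hG).levS_mono K (le_trans (Finset.le_sup (f := fun p : ι × κ => j1 p.1 p.2)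
      (Finset.mem_univ (i, p))) le_sup_left) (hj1 i p)
  have g2 : ∀ p i, y p i ∈ (ck K hG).levS K J := fun p i =>
    (ck K hG).levS_mono K (le_trans (Finset.le_sup (f := fun p : κ × ι => j2 p.1 p.2)
      (Finset.mem_univ (p, i))) le_sup_right) (hj2 p i)
  refine ⟨J, ?_⟩
  let X : Matrix ι κ ((ck K hG).lev K J) := fun i p => ⟨x i p, g1 i p⟩
  let Y : Matrix κ ι ((ck K hG).lev K J) := fun p i => ⟨y p i, g2 p i⟩
  let D : ∀ {μ : Type} [Fintype μ] [DecidableEq μ] (γ : μ → G.V),
      Matrix μ μ ((ck K hG).lev K J) := fun {μ} _ _ γ =>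
    Matrix.diagonal fun i => ⟨(ck K hG).q (γ i), q_mem_lev (ck K hG) K J (γ i)⟩
  have hDc : ∀ {μ : Type} [Fintype μ] [DecidableEq μ] (γ : μ → G.V) (i j : μ),
      ((D γ i j : (ck K hG).lev K J) : LPA K G) = Est K hG γ i j := by
    intro μ _ _ γ i j
    by_cases hij : i = j
    · subst hij
      have h5 : D γ i i = ⟨(ck K hG).q (γ i), q_mem_lev (ck K hG) K J (γ i)⟩ :=
        Matrix.diagonal_apply_eq _ _
      rw [Est, Matrix.diagonal_apply_eq, h5]
    · have h5 : D γ i j = 0 := Matrix.diagonal_apply_ne _ hij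
      rw [Est, Matrix.diagonal_apply_ne _ hij, h5]
      rfl
  have hDi : ∀ {μ : Type} [Fintype μ] [DecidableEq μ] (γ : μ → G.V), D γ * D γ = D γ := by
    intro μ _ _ γ
    rw [Matrix.diagonal_mul_diagonal]
    congr 1
    funext i
    exact Subtype.ext (by
      change (ck K hG).q _ * (ck K hG).q _ = (ck K hG).q _
      rw [(ck K hG).qq, if_pos rfl])
  have hXY : X * Y = D α := by
    ext i j
    rw [hDc, ← hxy, Matrix.mul_apply, Matrix.mul_apply, AddSubmonoidClass.coe_finsetSum]
    rfl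
  have hYX : Y * X = D β := by
    ext i j
    rw [hDc, ← hyx, Matrix.mul_apply, Matrix.mul_apply, AddSubmonoidClass.coe_finsetSum]
    rfl
  funext v
  obtain ⟨θ, hd, hθ⟩ := exists_dim (ck K hG) K (q_ne_zero K hG) v J
  have hval : ∀ {μ : Type} [Fintype μ] [DecidableEq μ] (γ : μ → G.V),
      θ μ (D γ) = (cnt γ ᵥ* (G.adj ^ J)) v := by
    intro μ _ _ γ
    rw [hd.diagonal]
    · rw [Finset.sum_congr rfl fun i _ => hθ (γ i)]
      exact sum_cnt γ (fun u => (G.adj ^ J) u v)
    · intro i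
      exact Subtype.ext (by
        change (ck K hG).q _ * (ck K hG).q _ = (ck K hG).q _
        rw [(ck K hG).qq, if_pos rfl])
  rw [← hval, ← hval]
  exact hd.eqv ι κ _ _ X Y (hDi α) (hDi β) hXY hYX

variable {d : ℕ} (S : Pres G d)

theorem val_eq_of_MvN' {ι κ : Type} [Fintype ι] [DecidableEq ι] [Fintype κ]
    [DecidableEq κ] (α : ι → G.V) (β : κ → G.V) (k k' : ℤ)
    (h : MvN (grading K G) (fun _ : ι => k) (Est K hG α) (fun _ : κ => k') (Est K hG β)) :
    S.val α k = S.val β k' := by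
  obtain ⟨a, b, hab⟩ : ∃ a b : ℕ, k - a = k' - b := by
    rcases le_total k k' with h | h
    · exact ⟨0, (k' - k).toNat, by rw [Int.toNat_of_nonneg (by omega)]; simp⟩
    · exact ⟨(k - k').toNat, 0, by rw [Int.toNat_of_nonneg (by omega)]; simp⟩
  obtain ⟨ι', _, _, α', m1, c1⟩ := raise K hG a α k
  obtain ⟨κ', _, _, β', m2, c2⟩ := raise K hG b β k'
  have m3 := (m1.symm.trans (Est_idem K hG _) (Est_idem K hG _) (Est_idem K hG _) h).trans
    (Est_idem K hG _) (Est_idem K hG _) (Est_idem K hG _) m2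
  rw [hab] at m3
  obtain ⟨j, hj⟩ := cnt_of_MvN' K hG α' β' (k' - b) m3
  have h1 := congrArg S.sm hj
  rw [c1, c2, Pres.sm_adj_pow, Pres.sm_adj_pow, Pres.sm_adj_pow, Pres.sm_adj_pow] at h1
  have h2 := vecMul_unit_cancel _ h1
  unfold Pres.val
  have e1 : S.C ^ k = S.C ^ a * S.C ^ (k - a) := by
    rw [← zpow_natCast, ← _root_.zpow_add]; congr 1; ring
  have e2 : S.C ^ k' = S.C ^ b * S.C ^ (k - a) := by
    rw [← zpow_natCast, ← _root_.zpow_add]; congr 1; rw [hab]; ring
  rw [e1, e2, Units.val_mul, Units.val_mul, ← Matrix.vecMul_vecMul, ← Matrix.vecMul_vecMul, h2]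

/-- The value of a module is determined. -/
def HV (P : GrMod (grading K G)) (x : Fin d → ℤ) : Prop :=
  ∃ (κ : Type) (_ : Fintype κ) (_ : DecidableEq κ) (β : κ → G.V) (k : ℤ),
    P.Iso (Std K hG β k) ∧ x = S.val β k

theorem HV.unique {P Q : GrMod (grading K G)} {x y : Fin d → ℤ} (h : HV K hG S P x)
    (h' : HV K hG S Q y) (hPQ : P.Iso Q) : x = y := by
  obtain ⟨κ, _, _, β, k, h1, rfl⟩ := h
  obtain ⟨κ', _, _, β', k', h1', rfl⟩ := h'
  exact val_eq_of_MvN' K hG S β β' k k'
    ((Std_iso_iff K hG β β' k k').mp ((h1.symm.trans hPQ).trans h1'))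

theorem HV.iso {P Q : GrMod (grading K G)} {x : Fin d → ℤ} (h : HV K hG S P x)
    (h' : HV K hG S Q x) : P.Iso Q := by
  obtain ⟨κ, _, _, β, k, h1, h2⟩ := h
  obtain ⟨κ', _, _, β', k', h1', h2'⟩ := h'
  exact (h1.trans ((Std_iso_iff K hG β β' k k').mpr
    (MvN_of_val_eq K hG S β β' k k' (h2.symm.trans h2')))).trans h1'.symm

theorem HV.exists {P : GrMod (grading K G)} (hP : P.IsFGProj) :
    ∃ x, HV K hG S P x := by
  obtain ⟨κ, _, _, β, k, h⟩ := exists_Std K hG hP
  exact ⟨_, κ, inferInstance, inferInstance, β, k, h, rfl⟩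

theorem HV.shift {P : GrMod (grading K G)} {x : Fin d → ℤ} (h : HV K hG S P x) :
    HV K hG S (P.shift 1) (x ᵥ* S.C.1) := by
  obtain ⟨κ, _, _, β, k, h1, rfl⟩ := h
  refine ⟨κ, inferInstance, inferInstance, β, k + 1, (h1.shift 1).trans (Std_shift K hG β k), ?_⟩
  unfold Pres.val
  rw [Matrix.vecMul_vecMul, ← Units.val_mul, _root_.zpow_add_one]

/-- lowering the degree of the presentation -/
theorem HV.lower {P : GrMod (grading K G)} {x : Fin d → ℤ}
    {κ : Type} [Fintype κ] [DecidableEq κ] {β : κ → G.V} {k : ℤ}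
    (h1 : P.Iso (Std K hG β k)) (a : ℕ) :
    ∃ (κ' : Type) (_ : Fintype κ') (_ : DecidableEq κ') (β' : κ' → G.V),
      P.Iso (Std K hG β' (k - a)) ∧ S.val β' (k - a) = S.val β k := by
  obtain ⟨κ', _, _, β', m1, c1⟩ := raise K hG a β k
  refine ⟨κ', inferInstance, inferInstance, β', h1.trans ((Std_iso_iff K hG _ _ _ _).mpr m1), ?_⟩
  exact (val_eq_of_MvN' K hG S β β' k (k - a) m1).symm

theorem cnt_sum' {V ι κ : Type} [Fintype ι] [Fintype κ] [DecidableEq V] (α : ι → V) (β : κ → V) :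
    cnt (Sum.elim α β) = cnt α + cnt β := by
  funext v
  unfold cnt
  simp only [Pi.add_apply]
  rw [Finset.card_filter, Finset.card_filter, Finset.card_filter, Fintype.sum_sum_type]
  rfl

theorem HV.dsum {P Q : GrMod (grading K G)} {x y : Fin d → ℤ} (h : HV K hG S P x)
    (h' : HV K hG S Q y) : HV K hG S (P.dsum Q) (x + y) := by
  obtain ⟨κ, _, _, β, k, h1, rfl⟩ := h
  obtain ⟨κ', _, _, β', k', h1', rfl⟩ := h'
  obtain ⟨a, b, hab⟩ : ∃ a b : ℕ, k - a = k' - b := by
    rcases le_total k k' with h | h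
    · exact ⟨0, (k' - k).toNat, by rw [Int.toNat_of_nonneg (by omega)]; simp⟩
    · exact ⟨(k - k').toNat, 0, by rw [Int.toNat_of_nonneg (by omega)]; simp⟩
  obtain ⟨κ₁, _, _, γ, g1, g2⟩ := HV.lower K hG S (x := 0) h1 a
  obtain ⟨κ₂, _, _, γ', g1', g2'⟩ := HV.lower K hG S (x := 0) h1' b
  rw [← hab] at g1' g2'
  refine ⟨κ₁ ⊕ κ₂, inferInstance, inferInstance, Sum.elim γ γ', k - a,
    (g1.dsum g1').trans (Std_dsum K hG γ γ' _), ?_⟩
  rw [← g2, ← g2']
  unfold Pres.val
  rw [cnt_sum', ← Matrix.add_vecMul]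
  congr 1
  unfold Pres.sm
  rw [← Finset.sum_add_distrib]
  refine Finset.sum_congr rfl fun v _ => ?_
  rw [Pi.add_apply, add_smul]

theorem HV.zero {ι : Type} [IsEmpty ι] [Finite ι] (δ : ι → ℤ) :
    HV K hG S (GrMod.free (grading K G) δ) 0 := by
  refine ⟨Empty, inferInstance, inferInstance, fun x => x.elim, 0, ?_, ?_⟩
  · have u1 : Subsingleton (GrMod.free (grading K G) δ).carrier :=
      inferInstanceAs (Subsingleton (ι → LPA K G))
    have u2 : Subsingleton (Std K hG (fun x : Empty => (x.elim : G.V)) 0).carrier :=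
      ⟨fun a b => Subtype.ext (funext fun x => x.elim)⟩
    refine ⟨LinearEquiv.ofSubsingleton _ _, fun i m => ?_⟩
    constructor
    · intro _ j _
      exact j.elim
    · intro _ j _
      exact isEmptyElim j
  · unfold Pres.val Pres.sm cnt
    simp

/-- The class homomorphism. -/
def clf : Vgr (grading K G) →+ (Fin d → ℤ) where
  toFun := Quotient.lift (fun P : FGP (grading K G) => (HV.exists K hG S P.2).choose)
    (fun P Q h => HV.unique K hG S (HV.exists K hG S P.2).choose_spec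
      (HV.exists K hG S Q.2).choose_spec h)
  map_zero' := HV.unique K hG S (HV.exists K hG S (GrMod.IsFGProj.free _)).choose_spec
    (HV.zero K hG S (fun x : Empty => x.elim)) (GrMod.Iso.refl _)
  map_add' := by
    rintro ⟨P⟩ ⟨Q⟩
    exact HV.unique K hG S (HV.exists K hG S (P.2.dsum Q.2)).choose_spec
      ((HV.exists K hG S P.2).choose_spec.dsum K hG S (HV.exists K hG S Q.2).choose_spec)
      (GrMod.Iso.refl _)

theorem clf_of_hasVal {P : GrMod (grading K G)} (hP : P.IsFGProj) {x : Fin d → ℤ}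
    (h : HV K hG S P x) : clf K hG S (Vgr.mk P hP) = x :=
  HV.unique K hG S (HV.exists K hG S hP).choose_spec h (GrMod.Iso.refl _)

theorem clf_spec {P : GrMod (grading K G)} (hP : P.IsFGProj) :
    HV K hG S P (clf K hG S (Vgr.mk P hP)) := (HV.exists K hG S hP).choose_spec

theorem clf_injective : Function.Injective (clf K hG S) := by
  rintro ⟨P⟩ ⟨Q⟩ h
  have h1 := clf_spec K hG S P.2
  have h2 := clf_spec K hG S Q.2
  have h3 : clf K hG S (Vgr.mk P.1 P.2) = clf K hG S (Vgr.mk Q.1 Q.2) := h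
  rw [h3] at h1
  exact Quotient.sound (HV.iso K hG S h1 h2)

theorem clf_shift (v : Vgr (grading K G)) : clf K hG S (Vgr.shift v) = clf K hG S v ᵥ* S.C.1 := by
  obtain ⟨P⟩ := v
  exact clf_of_hasVal K hG S (P.2.shift 1) ((clf_spec K hG S P.2).shift K hG S)

theorem clf_unit : clf K hG S (Vgr.mk (GrMod.regular (grading K G)) GrMod.IsFGProj.regular) =
    ∑ v, S.Θ v := by
  apply clf_of_hasVal
  refine ⟨G.V, inferInstance, inferInstance, id, 0, regular_Std K hG, ?_⟩
  unfold Pres.val Pres.sm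
  rw [zpow_zero, Units.val_one, Matrix.vecMul_one]
  refine Finset.sum_congr rfl fun v _ => ?_
  have : cnt (id : G.V → G.V) v = 1 := by
    unfold cnt
    simp [Finset.filter_eq']
  rw [this, one_smul]

/-- The image of the class homomorphism. -/
theorem clf_image (x : Fin d → ℤ) : (∃ v, clf K hG S v = x) ↔
    ∃ (n : G.V → ℕ) (k : ℤ), x = S.sm n ᵥ* (S.C ^ k).1 := by
  constructor
  · rintro ⟨⟨P⟩, rfl⟩
    obtain ⟨κ, _, _, β, k, h1, h2⟩ := clf_spec K hG S P.2
    exact ⟨cnt β, k, h2⟩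
  · rintro ⟨n, k, rfl⟩
    refine ⟨Vgr.mk (Std K hG (fun p : Σ v, Fin (n v) => p.1) k) (Std_proj K hG _ k), ?_⟩
    apply clf_of_hasVal
    refine ⟨_, inferInstance, inferInstance, _, k, GrMod.Iso.refl _, ?_⟩
    unfold Pres.val
    congr 2
    funext v
    unfold cnt
    rw [Finset.card_filter, Fintype.sum_sigma, Finset.sum_eq_single v]
    · simp
    · intro u _ hu
      simp [hu]
    · intro h; exact absurd (Finset.mem_univ _) h


end

end Pool.Agent.H63.LP
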