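import Pool.Agent.H63.LP.Cl

set_option linter.unusedSectionVars false
set_option linter.unusedVariables false
set_option linter.style.haveILetI false

/-!
# The examples over arbitrary fields

This follows the files `Lpa3`, `Ma2`, `Ex2` and `Ex5` of the library, without the assumptions
on the field.
-/

namespace Pool.Agent.H63.LP

open Matrix MulOpposite Pool.Agent.Y83 Pool.Agent.Y83.LPA Pool.Agent.Y83.GrMod

noncomputable section

/-- Graded isomorphic Leavitt path algebras come from strong shift equivalent graphs. -/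
theorem sse_of_gradedIso' (K : Type) [Field K] {G H : FGraph}
    (hG : G.NoSinks) (hH : H.NoSinks) (h : GradedIso K G H) {a b : ℕ} (σ : Fin a ≃ G.V)
    (ρ : Fin b ≃ H.V) : Relation.EqvGen WM.Step (G.wm σ) (H.wm ρ) := by
  obtain ⟨φ, hφ⟩ := h
  let γ : CKF G (LPA K H) := ((LPA.fam K G).map (φ : LPA K G →+* LPA K H)).toCKF hG
  let η : CKF H (LPA K H) := LPA.ck K hH
  -- the levels of `γ`
  have hlev : ∀ i, γ.levS K i = ((LPA.ck K hG).levS K i).map φ.toLinearMap := by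
    intro i
    induction i with
    | zero =>
      simp only [CKF.levS, Submodule.map_span]
      congr 1
      rw [← Set.range_comp]
      rfl
    | succ i ih =>
      simp only [CKF.levS, Submodule.map_iSup, ih]
      refine iSup_congr fun p => ?_
      rw [← Submodule.map_comp, ← Submodule.map_comp]
      congr 1
      refine LinearMap.ext fun x => ?_
      change γ.z p.1 * (φ x * γ.w p.2) =
        φ ((LPA.ck K hG).z p.1 * (x * (LPA.ck K hG).w p.2))
      rw [map_mul, map_mul]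
      rfl
  have hmem : ∀ y ∈ LPA.gr K H 0, ∃ i, y ∈ γ.levS K i := by
    intro y hy
    have h1 : φ.symm y ∈ LPA.gr K G 0 := by rw [hφ, AlgEquiv.apply_symm_apply]; exact hy
    obtain ⟨i, hi⟩ := LPA.exists_lev_of_mem K hG h1
    refine ⟨i, ?_⟩
    rw [hlev]
    exact ⟨φ.symm y, hi, by simp⟩
  have hγ : ∀ v, γ.q v ≠ 0 := by
    intro v hv
    apply LPA.q_ne_zero K hG v
    apply φ.injective
    rw [map_zero]
    exact hv
  have hη : ∀ v, η.q v ≠ 0 := LPA.q_ne_zero K hH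
  -- the finitely many elements
  have d1 : ∀ v, ∃ i, η.q v ∈ γ.levS K i := fun v => hmem _ (LPA.gen_mem_gr K (.vt v))
  have d2 : ∀ e f, ∃ i, γ.w e * η.z f ∈ γ.levS K i := by
    intro e f
    refine hmem _ ?_
    have h1 : γ.w e ∈ LPA.gr K H (-1) := (hφ _ _).mp (LPA.gen_mem_gr K (.gh e))
    have h2 : η.z f ∈ LPA.gr K H 1 := LPA.gen_mem_gr K (.ed f)
    simpa using LPA.mul_mem_gr K h1 h2
  have d3 : ∀ e f, ∃ i, η.w e * γ.z f ∈ γ.levS K i := by
    intro e f
    refine hmem _ ?_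
    have h1 : η.w e ∈ LPA.gr K H (-1) := LPA.gen_mem_gr K (.gh e)
    have h2 : γ.z f ∈ LPA.gr K H 1 := (hφ _ _).mp (LPA.gen_mem_gr K (.ed f))
    simpa using LPA.mul_mem_gr K h1 h2
  choose i1 hi1 using d1
  choose i2 hi2 using d2
  choose i3 hi3 using d3
  let n : ℕ := (Finset.univ.sup i1) ⊔ (Finset.univ.sup fun p : G.E × H.E => i2 p.1 p.2) ⊔
    (Finset.univ.sup fun p : H.E × G.E => i3 p.1 p.2)
  have n1 : ∀ v, i1 v ≤ n := fun v =>
    le_trans (Finset.le_sup (Finset.mem_univ v)) (le_trans le_sup_left le_sup_left)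
  have n2 : ∀ e f, i2 e f ≤ n := fun e f =>
    le_trans (Finset.le_sup (f := fun p : G.E × H.E => i2 p.1 p.2) (Finset.mem_univ (e, f)))
      (le_trans le_sup_right le_sup_left)
  have n3 : ∀ e f, i3 e f ≤ n := fun e f =>
    le_trans (Finset.le_sup (f := fun p : H.E × G.E => i3 p.1 p.2) (Finset.mem_univ (e, f)))
      le_sup_right
  -- the top level
  obtain ⟨M, hM⟩ : ∃ M, γ.levS K n ≤ η.levS K M := by
    refine LPA.exists_lev_of_le K hH ?_ ?_
    · have := γ.levS_fin K n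
      exact Module.Finite.iff_fg.mp this
    · rw [hlev]
      rintro _ ⟨x, hx, rfl⟩
      exact (hφ _ _).mp (LPA.levS_le_gr K hG n hx)
  exact sse_of_families (K := K) γ η hγ hη n M (fun v => γ.levS_mono K (n1 v) (hi1 v))
    (fun e f => γ.levS_mono K (n2 e f) (hi2 e f)) (fun e f => γ.levS_mono K (n3 e f) (hi3 e f))
    hM σ ρ


section ext

attribute [local instance] endAlg

variable (K : Type) [Field K] {G H : FGraph} (hG : G.NoSinks) (hH : H.NoSinks)

section main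

variable (ψ : LPA K G ≃ₐ[K] LPA K H)
  (hψ : ∀ n x, x ∈ grading K G n ↔ (ψ : LPA K G ≃+* LPA K H) x ∈ grading K H n)
variable {ι κ : Type} [Fintype ι] [DecidableEq ι] [Fintype κ] [DecidableEq κ]
  (α : ι → G.V) (β : κ → H.V) (k k' : ℤ)
  (σ : G.V → ι) (hσ : ∀ i a, G.s a = α i → α (σ (G.r a)) = G.r a)
  (σ' : H.V → κ) (hσ' : ∀ i a, H.s a = β i → β (σ' (H.r a)) = H.r a)

include hG hH hσ hσ' in
/-- A graded isomorphism which maps a standard module to a standard module gives a chain of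
strong shift equivalences. -/
theorem sse_of_extend'
    (h : ((Std K hG α k).extend (ψ : LPA K G ≃+* LPA K H) hψ).Iso (Std K hH β k'))
    {a b : ℕ} (ρ : Fin a ≃ ι) (ρ' : Fin b ≃ κ) :
    Relation.EqvGen WM.Step ((G.copy α σ).wm ρ) ((H.copy β σ').wm ρ') := by
  obtain ⟨φ, hφ⟩ := h
  let P := Std K hG α k
  let η := (entFam K hG α k σ hσ).map
    ((extHom K ψ hψ P : Module.End (LPA K G)ᵐᵒᵖ P.carrier →ₐ[K] Module.End (LPA K H)ᵐᵒᵖ
      (P.extend (ψ : LPA K G ≃+* LPA K H) hψ).carrier) :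
      Module.End (LPA K G)ᵐᵒᵖ P.carrier →+* Module.End (LPA K H)ᵐᵒᵖ
      (P.extend (ψ : LPA K G ≃+* LPA K H) hψ).carrier)
  have z1 : ∀ p, HomD (P.extend (ψ : LPA K G ≃+* LPA K H) hψ)
      (P.extend (ψ : LPA K G ≃+* LPA K H) hψ) 1 (η.z p) := fun p =>
    ent_homD K hG α k _ _ 1 _ (z_mem K hG p.1.2)
  have w1 : ∀ p, HomD (P.extend (ψ : LPA K G ≃+* LPA K H) hψ)
      (P.extend (ψ : LPA K G ≃+* LPA K H) hψ) (-1) (η.w p) := fun p =>
    ent_homD K hG α k _ _ (-1) _ (w_mem K hG p.1.2)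
  have q1 : ∀ i, HomD (P.extend (ψ : LPA K G ≃+* LPA K H) hψ)
      (P.extend (ψ : LPA K G ≃+* LPA K H) hψ) 0 (η.q i) := fun i =>
    ent_homD K hG α k i i 0 1 (one_mem_gr K)
  refine sse_of_exhausting (end0 K (P.extend (ψ : LPA K G ≃+* LPA K H) hψ)) η
    (trF K hH β k' φ σ' hσ') ?_ (trF_q_ne_zero K hH β k' φ σ' hσ') ?_
    (trF_exhausting K hH β k' φ hφ σ' hσ') ?_ ?_ ?_ ?_ ?_ ρ ρ'
  · intro i hi
    apply entFam_q_ne_zero K hG α k σ hσ i
    refine LinearMap.ext fun x => ?_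
    exact congrArg (fun f : Module.End (LPA K H)ᵐᵒᵖ
      (P.extend (ψ : LPA K G ≃+* LPA K H) hψ).carrier => f x) hi
  · intro g hg
    obtain ⟨g', rfl⟩ := extHom_surj K ψ hψ P g
    obtain ⟨i, hi⟩ := entFam_exhausting K hG α k σ hσ g' (fun n x hx => hg n x hx)
    exact ⟨i, (entFam K hG α k σ hσ).map_mem_levS (extHom K ψ hψ P) i g' hi⟩
  · exact fun v => (mem_end0_iff K).mpr (q1 v)
  · exact fun v => (mem_end0_iff K).mpr (trF_q_hom K hH β k' φ hφ σ' hσ' v)
  · exact fun x y => (mem_end0_iff K).mpr (homD_comp K (add_neg_cancel 1)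
      (w1 x) (trF_z_hom K hH β k' φ hφ σ' hσ' y))
  · exact fun x y => (mem_end0_iff K).mpr (homD_comp K (add_neg_cancel 1)
      (trF_w_hom K hH β k' φ hφ σ' hσ' x) (z1 y))
  · exact fun g hg x y => (mem_end0_iff K).mpr (homD_comp K (d := 1) (d' := -1)
      (neg_add_cancel 1)
      (homD_comp K (zero_add 1) (z1 x) ((mem_end0_iff K).mp hg))
      (w1 y))

end main


end ext

/-- The Leavitt path algebras of the two graphs are not graded isomorphic. -/
theorem not_gradedIso' (K : Type) [Field K] : ¬ GradedIso K graphE graphF := by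
  intro h
  have h1 := sse_of_gradedIso' K graphE_noSinks graphF_noSinks h
    (Equiv.refl (Fin 4)) (Equiv.refl (Fin 5))
  rw [graphE_wm, graphF_wm] at h1
  exact not_sse h1

theorem pointedK0Iso' (K : Type) [Field K] :
    ∃ f : K0gr (LPA.grading K graphE) ≃+ K0gr (LPA.grading K graphF), IsPointedK0Iso f := by
  let φ := clf K graphE_noSinks presE
  let ψ := clf K graphF_noSinks presF
  have h1 : ∀ x, ∃ y, ψ y = nuEquiv (φ x) := by
    intro x
    obtain ⟨n, k, hx⟩ := (clf_image K graphE_noSinks presE (φ x)).mp ⟨x, rfl⟩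
    refine (clf_image K graphF_noSinks presF _).mpr ?_
    let m : Fin 4 → ℕ := n ᵥ* M10
    let n' : Fin 5 → ℕ :=
      m ᵥ* (!![1,0,0,0,0; 0,1,0,0,0; 0,0,1,0,0; 0,0,0,1,0] : Matrix (Fin 4) (Fin 5) ℕ)
    refine ⟨n', k - 10, ?_⟩
    have e1 : n' ᵥ* RF = m := by
      have : (!![1,0,0,0,0; 0,1,0,0,0; 0,0,1,0,0; 0,0,0,1,0] : Matrix (Fin 4) (Fin 5) ℕ) *
          (!![1,0,0,0; 0,1,0,0; 0,0,1,0; 0,0,0,1; 0,0,0,1] : Matrix (Fin 5) (Fin 4) ℕ) = 1 := by
        decide
      change (m ᵥ* (!![1,0,0,0,0; 0,1,0,0,0; 0,0,1,0,0; 0,0,0,1,0] : Matrix (Fin 4) (Fin 5) ℕ)) ᵥ*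
        (!![1,0,0,0; 0,1,0,0; 0,0,1,0; 0,0,0,1; 0,0,0,1] : Matrix (Fin 5) (Fin 4) ℕ) = m
      rw [Matrix.vecMul_vecMul, this, Matrix.vecMul_one]
    have e2 : presF.sm n' = zvec m := (presF_sm n').trans (congrArg zvec e1)
    have e3 : φ x = @zvec (Fin 4) n ᵥ* (CU ^ k).1 :=
      hx.trans (congrArg (fun z => z ᵥ* (CU ^ k).1) (presE_sm n))
    rw [e2]
    change (φ x) ᵥ* nu = zvec m ᵥ* (CU ^ (k - 10)).1
    rw [e3, Matrix.vecMul_vecMul, comm_zpow nu_comm, split_zpow k 10, ← Matrix.mul_assoc, nu_pow,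
      ← Matrix.vecMul_vecMul]
    exact congrArg (fun z => z ᵥ* (CU ^ (k - 10)).1) (zvec_vecMul (V := Fin 4) n M10).symm
  have h2 : ∀ y, ∃ x, φ x = nuEquiv.symm (ψ y) := by
    intro y
    obtain ⟨n, k, hx⟩ := (clf_image K graphF_noSinks presF (ψ y)).mp ⟨y, rfl⟩
    refine (clf_image K graphE_noSinks presE _).mpr ?_
    let m : Fin 4 → ℕ := n ᵥ* RF
    let n' : Fin 4 → ℕ := m ᵥ* M6
    refine ⟨n', k - 6, ?_⟩
    have e2 : presE.sm n' = zvec n' := presE_sm n'
    have e3 : ψ y = zvec m ᵥ* (CU ^ k).1 :=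
      hx.trans (congrArg (fun z => z ᵥ* (CU ^ k).1) (presF_sm n))
    rw [e2]
    change (ψ y) ᵥ* nuinv = zvec n' ᵥ* (CU ^ (k - 6)).1
    rw [e3, Matrix.vecMul_vecMul, comm_zpow nuinv_comm, split_zpow k 6, ← Matrix.mul_assoc, nuinv_pow,
      ← Matrix.vecMul_vecMul, ← zvec_vecMul]
    rfl
  obtain ⟨F, hF⟩ := exists_addEquiv φ ψ (clf_injective K graphE_noSinks presE)
    (clf_injective K graphF_noSinks presF) nuEquiv h1 h2
  refine exists_pointedK0Iso F ?_ ?_
  · intro v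
    apply clf_injective K graphF_noSinks presF
    change ψ (F (Vgr.shift v)) = ψ (Vgr.shift (F v))
    rw [hF]
    change (φ (Vgr.shift v)) ᵥ* nu = _
    have s1 : φ (Vgr.shift v) = φ v ᵥ* CZ := clf_shift K graphE_noSinks presE v
    have s2 : ψ (Vgr.shift (F v)) = ψ (F v) ᵥ* CZ := clf_shift K graphF_noSinks presF (F v)
    rw [s1, s2, hF]
    change _ = ((φ v) ᵥ* nu) ᵥ* CZ
    rw [Matrix.vecMul_vecMul, Matrix.vecMul_vecMul, nu_comm]
  · apply clf_injective K graphF_noSinks presF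
    change ψ (F _) = ψ _
    rw [hF]
    have s1 : φ (Vgr.mk (GrMod.regular (LPA.grading K graphE)) GrMod.IsFGProj.regular) =
        ∑ v, presE.Θ v := clf_unit K graphE_noSinks presE
    have s2 : ψ (Vgr.mk (GrMod.regular (LPA.grading K graphF)) GrMod.IsFGProj.regular) =
        ∑ v, presF.Θ v := clf_unit K graphF_noSinks presF
    rw [s1, s2]
    have e1 : ∑ v, presE.Θ v = (![1, 1, 1, 1] : Fin 4 → ℤ) := by
      change ∑ v : Fin 4, zvec ((1 : Matrix (Fin 4) (Fin 4) ℕ) v) = _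
      decide
    have e2 : ∑ v, presF.Θ v = (![1, 1, 1, 2] : Fin 4 → ℤ) := by
      change ∑ v : Fin 5, zvec ((!![1,0,0,0; 0,1,0,0; 0,0,1,0; 0,0,0,1; 0,0,0,1] :
        Matrix (Fin 5) (Fin 4) ℕ) v) = _
      decide
    rw [e1, e2]
    change (![1, 1, 1, 1] : Fin 4 → ℤ) ᵥ* nu = _
    decide

theorem exists_F' (K : Type) [Field K] :
    ∃ F : Vgr (LPA.grading K graphS) ≃+ Vgr (LPA.grading K graphS),
      ∀ x, clf K graphS_noSinks presS (F x) = clf K graphS_noSinks presS x ᵥ* DW := by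
  let φ := clf K graphS_noSinks presS
  have h1 : ∀ x, ∃ y, φ y = dwEquiv (φ x) := by
    intro x
    obtain ⟨n, k, hx⟩ := (clf_image K graphS_noSinks presS (φ x)).mp ⟨x, rfl⟩
    refine (clf_image K graphS_noSinks presS _).mpr ⟨n ᵥ* DM24, k - 24, ?_⟩
    have e3 : φ x = @zvec (Fin 6) n ᵥ* (DU ^ k).1 :=
      hx.trans (congrArg (fun z => z ᵥ* (DU ^ k).1) (presS_sm n))
    exact (congrArg (fun z => z ᵥ* DW) e3).trans ((image_step DW_comm DW_pow n k).trans
      (congrArg (fun z => z ᵥ* (DU ^ (k - 24)).1) (presS_sm (n ᵥ* DM24)).symm))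
  have h2 : ∀ y, ∃ x, φ x = dwEquiv.symm (φ y) := by
    intro x
    obtain ⟨n, k, hx⟩ := (clf_image K graphS_noSinks presS (φ x)).mp ⟨x, rfl⟩
    refine (clf_image K graphS_noSinks presS _).mpr ⟨n ᵥ* DM5, k - 5, ?_⟩
    have e3 : φ x = @zvec (Fin 6) n ᵥ* (DU ^ k).1 :=
      hx.trans (congrArg (fun z => z ᵥ* (DU ^ k).1) (presS_sm n))
    exact (congrArg (fun z => z ᵥ* DWinv) e3).trans ((image_step DWinv_comm DWinv_pow n k).trans
      (congrArg (fun z => z ᵥ* (DU ^ (k - 5)).1) (presS_sm (n ᵥ* DM5)).symm))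
  obtain ⟨F, hF⟩ := exists_addEquiv φ φ (clf_injective K graphS_noSinks presS)
    (clf_injective K graphS_noSinks presS) dwEquiv h1 h2
  exact ⟨F, hF⟩

/-- No graded automorphism maps the first standard module to the second. -/
theorem not_extend' (K : Type) [Field K]
    (ψ : LPA K graphS ≃ₐ[K] LPA K graphS)
    (hψ : ∀ n x, x ∈ LPA.grading K graphS n ↔
      (ψ : LPA K graphS ≃+* LPA K graphS) x ∈ LPA.grading K graphS n)
    (h : ((LPA.Std K graphS_noSinks (fun x : Σ v : Fin 6, Fin (Du v) => x.1) 0).extend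
      (ψ : LPA K graphS ≃+* LPA K graphS) hψ).Iso
      (LPA.Std K graphS_noSinks (fun x : Σ v : Fin 6, Fin (Dw v) => x.1) 0)) : False := by
  have pu : ∀ v : Fin 6, 0 < Du v := by decide
  have pw : ∀ v : Fin 6, 0 < Dw v := by decide
  have h1 := sse_of_extend' K graphS_noSinks graphS_noSinks ψ hψ _ _ 0 0
    (fun v => ⟨v, ⟨0, pu v⟩⟩) (fun _ _ _ => rfl) (fun v => ⟨v, ⟨0, pw v⟩⟩) (fun _ _ _ => rfl) h
    (Fintype.equivFin _).symm (Fintype.equivFin _).symm
  exact not_sse6 (((Relation.EqvGen.rel _ _ (copy_step6 Du pu)).symm _ _).trans _ _ _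
    (h1.trans _ _ _ (Relation.EqvGen.rel _ _ (copy_step6 Dw pw))))

/-- The class of a standard module. -/
theorem clf_std (K : Type) [Field K] (n : Fin 6 → ℕ) :
    clf K graphS_noSinks presS (Vgr.mk
      (LPA.Std K graphS_noSinks (fun x : Σ v : Fin 6, Fin (n v) => (x.1 : graphS.V)) 0)
      (LPA.Std_proj K graphS_noSinks _ 0)) = zvec n := by
  apply clf_of_hasVal
  refine ⟨_, inferInstance, inferInstance, _, 0, GrMod.Iso.refl _, ?_⟩
  unfold Pres.val
  rw [zpow_zero, Units.val_one, Matrix.vecMul_one]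
  exact ((presS_sm n).symm).trans (congrArg presS.sm (cnt_sigma' n).symm)

/-- The main theorem: an automorphism of the pointed ordered group which is not induced. -/
theorem exists_not_lift' (K : Type) [Field K] :
    ∃ f : K0gr (LPA.grading K graphS) ≃+ K0gr (LPA.grading K graphS), IsPointedK0Iso f ∧
      ∀ (ψ : LPA K graphS ≃ₐ[K] LPA K graphS)
        (hψ : ∀ n x, x ∈ LPA.grading K graphS n ↔
          (ψ : LPA K graphS ≃+* LPA K graphS) x ∈ LPA.grading K graphS n),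
        K0gr.map (ψ : LPA K graphS ≃+* LPA K graphS) hψ ≠ f.toAddMonoidHom := by
  obtain ⟨F, hF⟩ := exists_F' K
  have inj := clf_injective K graphS_noSinks presS
  obtain ⟨f, hf, hfF⟩ := exists_pointedK0Iso' F
    (by
      intro v
      apply inj
      rw [hF]
      have s1 : clf K graphS_noSinks presS (Vgr.shift v) =
        clf K graphS_noSinks presS v ᵥ* DZ := clf_shift K graphS_noSinks presS v
      have s2 : clf K graphS_noSinks presS (Vgr.shift (F v)) =
        clf K graphS_noSinks presS (F v) ᵥ* DZ := clf_shift K graphS_noSinks presS (F v)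
      rw [s1, s2, hF, Matrix.vecMul_vecMul, Matrix.vecMul_vecMul, DW_comm])
    (by
      apply inj
      rw [hF]
      have s1 : clf K graphS_noSinks presS
          (Vgr.mk (GrMod.regular (LPA.grading K graphS)) GrMod.IsFGProj.regular) =
          ∑ v, presS.Θ v := clf_unit K graphS_noSinks presS
      have e1 : ∑ v, presS.Θ v = (fun _ => 1 : Fin 6 → ℤ) := by
        change ∑ v : Fin 6, zvec ((1 : Matrix (Fin 6) (Fin 6) ℕ) v) = _
        decide
      rw [s1, e1, DW_unit])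
  refine ⟨f, hf, fun ψ hψ h => ?_⟩
  let P := LPA.Std K graphS_noSinks (fun x : Σ v : Fin 6, Fin (Du v) => (x.1 : graphS.V)) 0
  let Q := LPA.Std K graphS_noSinks (fun x : Σ v : Fin 6, Fin (Dw v) => (x.1 : graphS.V)) 0
  have hP : P.IsFGProj := LPA.Std_proj K graphS_noSinks _ 0
  have hQ : Q.IsFGProj := LPA.Std_proj K graphS_noSinks _ 0
  have h1 := DFunLike.congr_fun h (K0gr.cls (Vgr.mk P hP))
  rw [K0gr.map_cls] at h1
  have h2 : K0gr.cls (Vgr.mk (P.extend (ψ : LPA K graphS ≃+* LPA K graphS) hψ)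
      (hP.extend (ψ : LPA K graphS ≃+* LPA K graphS) hψ)) = K0gr.cls (F (Vgr.mk P hP)) :=
    h1.trans (hfF _)
  have h3 := K0gr.cls_injective _ inj h2
  have h4 : F (Vgr.mk P hP) = Vgr.mk Q hQ := by
    apply inj
    rw [hF]
    exact (congrArg (fun z => z ᵥ* DW) (clf_std K Du)).trans (Du_DW.trans (clf_std K Dw).symm)
  rw [h4] at h3
  exact not_extend' K ψ hψ (Vgr.mk_eq_iff.mp h3)

theorem exists_not_induced' (K : Type) [Field K] :
    ∃ f : K0gr (LPA.grading K graphS) ≃+ K0gr (LPA.grading K graphS),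
      IsPointedK0Iso f ∧ ¬ IsInduced K f := by
  obtain ⟨f, h1, h2⟩ := exists_not_lift' K
  refine ⟨f, h1, ?_⟩
  rintro ⟨ψ, h⟩
  exact h2 ψ.alg ψ.deg (AddMonoidHom.ext fun x => (h x).symm)


end

end Pool.Agent.H63.LP
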