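import Pool.Agent.H63.LP.Fi

set_option linter.unusedSectionVars false
set_option linter.unusedVariables false
set_option linter.style.haveILetI false

/-!
# Graded ring isomorphisms
-/

namespace Pool.Agent.H63.LP

open Matrix MulOpposite Pool.Agent.Y83 Pool.Agent.Y83.LPA Pool.Agent.Y83.GrMod

noncomputable section

/-- Semilinear ring homomorphisms map levels to levels. -/
theorem map_mem_levS_semi {K K' B B' : Type} [Field K] [Field K'] [Ring B] [Ring B'] [Algebra K B]
    [Algebra K' B'] {G : FGraph} (γ : CKF G B) (f : B →+* B') (σ : K → K')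
    (hσ : ∀ (c : K) (b : B), f (c • b) = σ c • f b) (i : ℕ) :
    ∀ t ∈ γ.levS K i, f t ∈ (γ.map f).levS K' i := by
  have hN : ∀ i, ∃ N : Submodule K B, ∀ t, t ∈ N ↔ f t ∈ (γ.map f).levS K' i := fun i =>
    ⟨{ carrier := {t | f t ∈ (γ.map f).levS K' i}
       add_mem' := fun {a b} ha hb => by
         change f (a + b) ∈ (γ.map f).levS K' i
         rw [map_add]; exact Submodule.add_mem _ ha hb
       zero_mem' := by
         change f 0 ∈ (γ.map f).levS K' i
         rw [map_zero]; exact Submodule.zero_mem _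
       smul_mem' := fun c a ha => by
         change f (c • a) ∈ (γ.map f).levS K' i
         rw [hσ]; exact Submodule.smul_mem _ _ ha }, fun _ => Iff.rfl⟩
  induction i with
  | zero =>
    intro t ht
    obtain ⟨N, hN⟩ := hN 0
    rw [← hN]
    have h : γ.levS K 0 ≤ N := by
      refine Submodule.span_le.mpr ?_
      rintro _ ⟨v, rfl⟩
      rw [SetLike.mem_coe, hN]
      exact (γ.map f).q_mem_levS_zero K' v
    exact h ht
  | succ i ih =>
    intro t ht
    obtain ⟨N, hN⟩ := hN (i + 1)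
    rw [← hN]
    have h : γ.levS K (i + 1) ≤ N := by
      refine γ.levS_succ_le K fun t ht e e' => ?_
      rw [hN, map_mul, map_mul]
      exact (γ.map f).zw_mem K' (ih t ht) e e'
    exact h ht

section iso

variable (K K' : Type) [Field K] [Field K'] {G H : FGraph} (hG : G.NoSinks) (hH : H.NoSinks)
  (v0 : H.V) (hv0 : ∀ v, Relation.ReflTransGen H.Edge v v0)
  (ψ : LPA K G ≃+* LPA K' H) (hψ : ∀ n x, x ∈ grading K G n ↔ ψ x ∈ grading K' H n)

include hH hv0 hψ in
/-- A graded ring isomorphism maps scalars to scalars. -/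
theorem exists_sigma : ∃ σ : K → K', ∀ c : K,
    ψ (algebraMap K (LPA K G) c) = algebraMap K' (LPA K' H) (σ c) := by
  have h : ∀ c : K, ∃ c' : K', ψ (algebraMap K (LPA K G) c) = algebraMap K' (LPA K' H) c' := by
    intro c
    have h1 : ψ (algebraMap K (LPA K G) c) ∈ grading K' H 0 := (hψ _ _).mp (algebraMap_mem K c)
    obtain ⟨m, hm⟩ := exists_lev_of_mem K' hH h1
    have hc : ∀ b : LPA K' H, ψ (algebraMap K (LPA K G) c) * b =
        b * ψ (algebraMap K (LPA K G) c) := by
      intro b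
      obtain ⟨a, rfl⟩ := ψ.surjective b
      rw [← map_mul, ← map_mul, Algebra.commutes]
    obtain ⟨c', hc'⟩ := (ck K' hH).center_scalar (q_ne_zero K' hH) hH v0 hv0 hm
      (fun e => hc _) (fun e => hc _)
    exact ⟨c', by rw [hc', Algebra.algebraMap_eq_smul_one]⟩
  choose σ hσ using h
  exact ⟨σ, hσ⟩

include hG hH hv0 hψ in
/-- Leavitt path algebras which are isomorphic as graded rings come from strong shift equivalent
graphs. -/
theorem sse_of_ringIso {a b : ℕ} (ρ : Fin a ≃ G.V) (ρ' : Fin b ≃ H.V) :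
    Relation.EqvGen WM.Step (G.wm ρ) (H.wm ρ') := by
  obtain ⟨σ, hσ⟩ := exists_sigma K K' hH v0 hv0 ψ hψ
  have hs : ∀ (c : K) (b : LPA K G), (ψ : LPA K G →+* LPA K' H) (c • b) =
      σ c • (ψ : LPA K G →+* LPA K' H) b := by
    intro c b
    change ψ (c • b) = σ c • ψ b
    rw [Algebra.smul_def, map_mul, hσ, Algebra.smul_def]
  have z1 : ∀ e, ψ ((ck K hG).z e) ∈ grading K' H 1 := fun e => (hψ _ _).mp (z_mem K hG e)
  have w1 : ∀ e, ψ ((ck K hG).w e) ∈ grading K' H (-1) := fun e => (hψ _ _).mp (w_mem K hG e)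
  refine sse_of_exhausting (gr K' H 0) ((ck K hG).map (ψ : LPA K G →+* LPA K' H)) (ck K' hH)
    ?_ (q_ne_zero K' hH) ?_ ?_ ?_ ?_ ?_ ?_ ?_ ρ ρ'
  · intro v hv
    apply q_ne_zero K hG v
    apply ψ.injective
    rw [map_zero]
    exact hv
  · intro b hb
    have h1 : ψ.symm b ∈ grading K G 0 := by
      rw [hψ, RingEquiv.apply_symm_apply]
      exact hb
    obtain ⟨i, hi⟩ := exists_lev_of_mem K hG h1
    refine ⟨i, ?_⟩
    have h2 := map_mem_levS_semi (K' := K') (ck K hG) (ψ : LPA K G →+* LPA K' H) σ hs i _ hi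
    have h3 : (ψ : LPA K G →+* LPA K' H) (ψ.symm b) = b := ψ.apply_symm_apply b
    rwa [h3] at h2
  · exact fun b hb => exists_lev_of_mem K' hH hb
  · exact fun v => (hψ _ _).mp (q_mem K hG v)
  · exact fun v => q_mem K' hH v
  · exact fun e f => mul_mem_of K' (neg_add_cancel 1) (w1 e) (z_mem K' hH f)
  · exact fun e f => mul_mem_of K' (neg_add_cancel 1) (w_mem K' hH e) (z1 f)
  · exact fun b hb e f => mul_mem_of K' (add_neg_cancel 1)
      (mul_mem_of K' (add_zero 1) (z1 e) hb) (w1 f)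

variable (P : GrMod (grading K G))

/-- Endomorphisms of a module are endomorphisms of the extended module. -/
def extHomR : Module.End (LPA K G)ᵐᵒᵖ P.carrier →+*
    Module.End (LPA K' H)ᵐᵒᵖ (P.extend ψ hψ).carrier where
  toFun g :=
    { toFun := g
      map_add' := g.map_add
      map_smul' := fun b x => g.map_smul (op (ψ.symm b.unop)) x }
  map_one' := rfl
  map_mul' _ _ := rfl
  map_zero' := rfl
  map_add' _ _ := rfl

/-- every endomorphism of the extended module comes from the module -/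
theorem extHomR_surj (g : Module.End (LPA K' H)ᵐᵒᵖ (P.extend ψ hψ).carrier) :
    ∃ g', extHomR K K' ψ hψ P g' = g := by
  refine ⟨{ toFun := g, map_add' := g.map_add, map_smul' := fun a x => ?_ }, rfl⟩
  have h1 := g.map_smul (op (ψ a.unop)) x
  change g ((op (ψ.symm (ψ a.unop)) • (show P.carrier from x) : P.carrier)) =
    (op (ψ.symm (ψ a.unop)) • (show P.carrier from g x) : P.carrier) at h1
  rw [RingEquiv.symm_apply_apply] at h1
  exact h1

end iso

section main

attribute [local instance] endAlg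

variable (K K' : Type) [Field K] [Field K'] {G H : FGraph} (hG : G.NoSinks) (hH : H.NoSinks)
  (v0 : H.V) (hv0 : ∀ v, Relation.ReflTransGen H.Edge v v0)
  (ψ : LPA K G ≃+* LPA K' H) (hψ : ∀ n x, x ∈ grading K G n ↔ ψ x ∈ grading K' H n)
variable {ι κ : Type} [Fintype ι] [DecidableEq ι] [Fintype κ] [DecidableEq κ]
  (α : ι → G.V) (β : κ → H.V) (k k' : ℤ)
  (σ : G.V → ι) (hσ : ∀ i a, G.s a = α i → α (σ (G.r a)) = G.r a)
  (σ' : H.V → κ) (hσ' : ∀ i a, H.s a = β i → β (σ' (H.r a)) = H.r a)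

include hG hH hv0 hσ hσ' in
/-- A graded ring isomorphism which maps a standard module to a standard module gives a chain of
strong shift equivalences. -/
theorem sse_of_extend_ring
    (h : ((Std K hG α k).extend ψ hψ).Iso (Std K' hH β k'))
    {a b : ℕ} (ρ : Fin a ≃ ι) (ρ' : Fin b ≃ κ) :
    Relation.EqvGen WM.Step ((G.copy α σ).wm ρ) ((H.copy β σ').wm ρ') := by
  obtain ⟨φ, hφ⟩ := h
  obtain ⟨s, hs⟩ := exists_sigma K K' hH v0 hv0 ψ hψ
  let P := Std K hG α k
  have hs' : ∀ (c : K) (g : Module.End (LPA K G)ᵐᵒᵖ P.carrier),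
      extHomR K K' ψ hψ P (c • g) = s c • extHomR K K' ψ hψ P g := by
    intro c g
    refine LinearMap.ext fun x => ?_
    change (op (algebraMap K (LPA K G) c) • (g x) : P.carrier) =
      (op (ψ.symm (algebraMap K' (LPA K' H) (s c))) • (g x) : P.carrier)
    rw [← hs, RingEquiv.symm_apply_apply]
  let η := (entFam K hG α k σ hσ).map (extHomR K K' ψ hψ P)
  have z1 : ∀ p, HomD (P.extend ψ hψ) (P.extend ψ hψ) 1 (η.z p) := fun p =>
    ent_homD K hG α k _ _ 1 _ (z_mem K hG p.1.2)
  have w1 : ∀ p, HomD (P.extend ψ hψ) (P.extend ψ hψ) (-1) (η.w p) := fun p =>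
    ent_homD K hG α k _ _ (-1) _ (w_mem K hG p.1.2)
  have q1 : ∀ i, HomD (P.extend ψ hψ) (P.extend ψ hψ) 0 (η.q i) := fun i =>
    ent_homD K hG α k i i 0 1 (one_mem_gr K)
  refine sse_of_exhausting (end0 K' (P.extend ψ hψ)) η
    (trF K' hH β k' φ σ' hσ') ?_ (trF_q_ne_zero K' hH β k' φ σ' hσ') ?_
    (trF_exhausting K' hH β k' φ hφ σ' hσ') ?_ ?_ ?_ ?_ ?_ ρ ρ'
  · intro i hi
    apply entFam_q_ne_zero K hG α k σ hσ i
    refine LinearMap.ext fun x => ?_
    exact congrArg (fun f : Module.End (LPA K' H)ᵐᵒᵖ (P.extend ψ hψ).carrier => f x) hi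
  · intro g hg
    obtain ⟨g', rfl⟩ := extHomR_surj K K' ψ hψ P g
    obtain ⟨i, hi⟩ := entFam_exhausting K hG α k σ hσ g' (fun n x hx => hg n x hx)
    exact ⟨i, map_mem_levS_semi (K' := K') (entFam K hG α k σ hσ) (extHomR K K' ψ hψ P) s hs' i
      g' hi⟩
  · exact fun v => (mem_end0_iff K').mpr (q1 v)
  · exact fun v => (mem_end0_iff K').mpr (trF_q_hom K' hH β k' φ hφ σ' hσ' v)
  · exact fun x y => (mem_end0_iff K').mpr (homD_comp K' (add_neg_cancel 1)
      (w1 x) (trF_z_hom K' hH β k' φ hφ σ' hσ' y))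
  · exact fun x y => (mem_end0_iff K').mpr (homD_comp K' (add_neg_cancel 1)
      (trF_w_hom K' hH β k' φ hφ σ' hσ' x) (z1 y))
  · exact fun g hg x y => (mem_end0_iff K').mpr (homD_comp K' (d := 1) (d' := -1)
      (neg_add_cancel 1)
      (homD_comp K' (zero_add 1) (z1 x) ((mem_end0_iff K').mp hg))
      (w1 y))

end main

/-- No graded ring automorphism maps the first standard module to the second. -/
theorem not_extend_ring (K : Type) [Field K]
    (ψ : LPA K graphS ≃+* LPA K graphS)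
    (hψ : ∀ n x, x ∈ LPA.grading K graphS n ↔
      (ψ : LPA K graphS ≃+* LPA K graphS) x ∈ LPA.grading K graphS n)
    (h : ((LPA.Std K graphS_noSinks (fun x : Σ v : Fin 6, Fin (Du v) => x.1) 0).extend
      (ψ : LPA K graphS ≃+* LPA K graphS) hψ).Iso
      (LPA.Std K graphS_noSinks (fun x : Σ v : Fin 6, Fin (Dw v) => x.1) 0)) : False := by
  have pu : ∀ v : Fin 6, 0 < Du v := by decide
  have pw : ∀ v : Fin 6, 0 < Dw v := by decide
  have h1 := sse_of_extend_ring K K graphS_noSinks graphS_noSinks (0 : Fin 6)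
    (fun v => (graphS_connected v (0 : Fin 6)).to_reflTransGen) ψ hψ _ _ 0 0
    (fun v => ⟨v, ⟨0, pu v⟩⟩) (fun _ _ _ => rfl) (fun v => ⟨v, ⟨0, pw v⟩⟩) (fun _ _ _ => rfl) h
    (Fintype.equivFin _).symm (Fintype.equivFin _).symm
  exact not_sse6 (((Relation.EqvGen.rel _ _ (copy_step6 Du pu)).symm _ _).trans _ _ _
    (h1.trans _ _ _ (Relation.EqvGen.rel _ _ (copy_step6 Dw pw))))

/-- The main theorem: an automorphism of the pointed ordered group which is not induced. -/
theorem exists_not_lift_ring (K : Type) [Field K] :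
    ∃ f : K0gr (LPA.grading K graphS) ≃+ K0gr (LPA.grading K graphS), IsPointedK0Iso f ∧
      ∀ (ψ : LPA K graphS ≃+* LPA K graphS)
        (hψ : ∀ n x, x ∈ LPA.grading K graphS n ↔
          (ψ : LPA K graphS ≃+* LPA K graphS) x ∈ LPA.grading K graphS n),
        K0gr.map (ψ : LPA K graphS ≃+* LPA K graphS) hψ ≠ f.toAddMonoidHom := by
  obtain ⟨F, hF⟩ := exists_F' K
  have inj := clf_injective K graphS_noSinks presS
  obtain ⟨f, hf, hfF⟩ := exists_pointedK0Iso' F
    (by
      intro v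
      apply inj
      rw [hF]
      have s1 : clf K graphS_noSinks presS (Vgr.shift v) =
        clf K graphS_noSinks presS v ᵥ* DZ := clf_shift K graphS_noSinks presS v
      have s2 : clf K graphS_noSinks presS (Vgr.shift (F v)) =
        clf K graphS_noSinks presS (F v) ᵥ* DZ := clf_shift K graphS_noSinks presS (F v)
      rw [s1, s2, hF, Matrix.vecMul_vecMul, Matrix.vecMul_vecMul, DW_comm])
    (by
      apply inj
      rw [hF]
      have s1 : clf K graphS_noSinks presS
          (Vgr.mk (GrMod.regular (LPA.grading K graphS)) GrMod.IsFGProj.regular) =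
          ∑ v, presS.Θ v := clf_unit K graphS_noSinks presS
      have e1 : ∑ v, presS.Θ v = (fun _ => 1 : Fin 6 → ℤ) := by
        change ∑ v : Fin 6, zvec ((1 : Matrix (Fin 6) (Fin 6) ℕ) v) = _
        decide
      rw [s1, e1, DW_unit])
  refine ⟨f, hf, fun ψ hψ h => ?_⟩
  let P := LPA.Std K graphS_noSinks (fun x : Σ v : Fin 6, Fin (Du v) => (x.1 : graphS.V)) 0
  let Q := LPA.Std K graphS_noSinks (fun x : Σ v : Fin 6, Fin (Dw v) => (x.1 : graphS.V)) 0
  have hP : P.IsFGProj := LPA.Std_proj K graphS_noSinks _ 0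
  have hQ : Q.IsFGProj := LPA.Std_proj K graphS_noSinks _ 0
  have h1 := DFunLike.congr_fun h (K0gr.cls (Vgr.mk P hP))
  rw [K0gr.map_cls] at h1
  have h2 : K0gr.cls (Vgr.mk (P.extend (ψ : LPA K graphS ≃+* LPA K graphS) hψ)
      (hP.extend (ψ : LPA K graphS ≃+* LPA K graphS) hψ)) = K0gr.cls (F (Vgr.mk P hP)) :=
    h1.trans (hfF _)
  have h3 := K0gr.cls_injective _ inj h2
  have h4 : F (Vgr.mk P hP) = Vgr.mk Q hQ := by
    apply inj
    rw [hF]
    exact (congrArg (fun z => z ᵥ* DW) (clf_std K Du)).trans (Du_DW.trans (clf_std K Dw).symm)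
  rw [h4] at h3
  exact not_extend_ring K ψ hψ (Vgr.mk_eq_iff.mp h3)


theorem graphF_reach (v : graphF.V) : Relation.ReflTransGen graphF.Edge v (0 : Fin 5) := by
  have e (a b : Fin 5) (e : Fin 7) (h : (![0, 1, 2, 3, 3, 4, 4] : Fin 7 → Fin 5) e = a ∧
      (![1, 2, 3, 0, 1, 0, 1] : Fin 7 → Fin 5) e = b) :
      Relation.ReflTransGen graphF.Edge a b := Relation.ReflTransGen.single ⟨e, h.1, h.2⟩
  have h30 := e 3 0 3 (by decide)
  have h20 := (e 2 3 2 (by decide)).trans h30
  have h10 := (e 1 2 1 (by decide)).trans h20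
  have h40 := e 4 0 5 (by decide)
  change Fin 5 at v
  fin_cases v
  · exact Relation.ReflTransGen.refl
  · exact h10
  · exact h20
  · exact h30
  · exact h40

/-- The Leavitt path algebras of the two graphs are not isomorphic as graded rings. -/
theorem not_gradedRingIso (K K' : Type) [Field K] [Field K'] (ψ : LPA K graphE ≃+* LPA K' graphF)
    (hψ : ∀ n x, x ∈ grading K graphE n ↔ ψ x ∈ grading K' graphF n) : False := by
  have h1 := sse_of_ringIso K K' graphE_noSinks graphF_noSinks (0 : Fin 5) graphF_reach ψ hψ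
    (Equiv.refl (Fin 4)) (Equiv.refl (Fin 5))
  rw [graphE_wm, graphF_wm] at h1
  exact not_sse h1

end

end Pool.Agent.H63.LP
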