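import Mathlib

/-!
# Rank functions on idempotent matrices over rings
-/

namespace Pool.Agent.H63.LP

open Matrix

/-- A function with natural values on the idempotent matrices over a ring, which takes the same
value on equivalent idempotents and is additive. -/
structure IsDim {T : Type} [Ring T] (θ : ∀ (ι : Type) [Fintype ι], Matrix ι ι T → ℕ) : Prop where
  eqv : ∀ (ι κ : Type) [Fintype ι] [Fintype κ] (M : Matrix ι ι T) (N : Matrix κ κ T)
    (x : Matrix ι κ T) (y : Matrix κ ι T), M * M = M → N * N = N → x * y = M → y * x = N →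
    θ ι M = θ κ N
  add : ∀ (ι κ : Type) [Fintype ι] [Fintype κ] (M : Matrix ι ι T) (N : Matrix κ κ T),
    M * M = M → N * N = N → θ (ι ⊕ κ) (fromBlocks M 0 0 N) = θ ι M + θ κ N

/-- The matrix with one entry. -/
def one1 {T : Type} (c : T) : Matrix Unit Unit T := fun _ _ => c

theorem one1_mul {T : Type} [Ring T] (c d : T) : one1 c * one1 d = one1 (c * d) := by
  ext
  simp [one1, Matrix.mul_apply]

namespace IsDim

variable {T : Type} [Ring T] {θ : ∀ (ι : Type) [Fintype ι], Matrix ι ι T → ℕ} (h : IsDim θ)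

include h

theorem zero (ι : Type) [Fintype ι] : θ ι 0 = 0 := by
  have h1 := h.add ι ι 0 0 (mul_zero _) (mul_zero _)
  have h2 : (fromBlocks 0 0 0 0 : Matrix (ι ⊕ ι) (ι ⊕ ι) T) = 0 := fromBlocks_zero
  rw [h2] at h1
  have h3 := h.eqv (ι ⊕ ι) ι (0 : Matrix (ι ⊕ ι) (ι ⊕ ι) T) 0 0 0 (mul_zero _) (mul_zero _)
    (Matrix.zero_mul _) (Matrix.zero_mul _)
  omega

theorem orth {ι : Type} [Fintype ι] {M N : Matrix ι ι T} (hM : M * M = M) (hN : N * N = N)
    (h1 : M * N = 0) (h2 : N * M = 0) : θ ι (M + N) = θ ι M + θ ι N := by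
  rw [← h.add ι ι M N hM hN]
  refine h.eqv ι (ι ⊕ ι) _ _ (fromCols M N) (fromRows M N) ?_ ?_ ?_ ?_
  · rw [mul_add, add_mul, add_mul, hM, hN, h1, h2, zero_add, add_zero]
  · rw [fromBlocks_multiply]
    simp [hM, hN]
  · rw [fromCols_mul_fromRows, hM, hN]
  · rw [fromRows_mul_fromCols, hM, hN, h1, h2]

theorem sum {ι α : Type} [Fintype ι] (s : Finset α) (M : α → Matrix ι ι T)
    (hM : ∀ a, M a * M a = M a) (ho : ∀ a b, a ≠ b → M a * M b = 0) :
    θ ι (∑ a ∈ s, M a) = ∑ a ∈ s, θ ι (M a) := by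
  classical
  induction s using Finset.induction_on with
  | empty => simpa using h.zero ι
  | insert a s ha ih =>
    have h1 : (∑ b ∈ s, M b) * (∑ b ∈ s, M b) = ∑ b ∈ s, M b := by
      rw [Finset.sum_mul_sum]
      refine Finset.sum_congr rfl fun b hb => ?_
      rw [Finset.sum_eq_single b (fun c _ hc => ho b c (Ne.symm hc)) (fun hb' => absurd hb hb'),
        hM]
    have h2 : M a * (∑ b ∈ s, M b) = 0 := by
      rw [Finset.mul_sum]
      exact Finset.sum_eq_zero fun b hb => ho a b fun e => ha (e ▸ hb)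
    have h3 : (∑ b ∈ s, M b) * M a = 0 := by
      rw [Finset.sum_mul]
      exact Finset.sum_eq_zero fun b hb => ho b a fun e => ha (e ▸ hb)
    rw [Finset.sum_insert ha, Finset.sum_insert ha, h.orth (hM a) h1 h2 h3, ih]

theorem single {ι : Type} [Fintype ι] [DecidableEq ι] (i : ι) (c : T) (hc : c * c = c) :
    θ ι (Matrix.single i i c) = θ Unit (one1 c) := by
  refine h.eqv ι Unit _ _ (fun j _ => if j = i then c else 0) (fun _ j => if j = i then c else 0)
    ?_ ?_ ?_ ?_
  · rw [Matrix.single_mul_single_same, hc]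
  · rw [one1_mul, hc]
  · ext j k
    rw [Matrix.mul_apply, Finset.sum_const, Finset.card_univ, Fintype.card_unit, one_smul]
    by_cases hj : j = i
    · subst hj
      by_cases hk : k = j
      · subst hk
        rw [if_pos rfl, hc, Matrix.single_apply_same]
      · rw [if_neg hk, mul_zero, Matrix.single_apply_of_col_ne _ _ (Ne.symm hk)]
    · rw [if_neg hj, zero_mul, Matrix.single_apply_of_row_ne (Ne.symm hj)]
  · ext j k
    rw [Matrix.mul_apply, Finset.sum_eq_single i]
    · rw [if_pos rfl, hc]; rfl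
    · intro b _ hb
      rw [if_neg hb, zero_mul]
    · intro h; exact absurd (Finset.mem_univ _) h

theorem diagonal {ι : Type} [Fintype ι] [DecidableEq ι] (d : ι → T) (hd : ∀ i, d i * d i = d i) :
    θ ι (Matrix.diagonal d) = ∑ i, θ Unit (one1 (d i)) := by
  have h1 : Matrix.diagonal d = ∑ i, Matrix.single i i (d i) := by
    ext j k
    rw [Matrix.sum_apply]
    by_cases hjk : j = k
    · subst hjk
      rw [Matrix.diagonal_apply_eq, Finset.sum_eq_single j]
      · rw [Matrix.single_apply_same]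
      · intro b _ hb
        rw [Matrix.single_apply_of_row_ne hb]
      · intro h; exact absurd (Finset.mem_univ _) h
    · rw [Matrix.diagonal_apply_ne _ hjk, Finset.sum_eq_zero]
      intro b _
      by_cases hb : b = j
      · subst hb
        rw [Matrix.single_apply_of_col_ne _ _ hjk]
      · rw [Matrix.single_apply_of_row_ne hb]
  rw [h1, h.sum]
  · exact Finset.sum_congr rfl fun i _ => h.single i _ (hd i)
  · intro a
    rw [Matrix.single_mul_single_same, hd]
  · intro a b hab
    rw [Matrix.single_mul_single_of_ne _ _ _ _ hab]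

/-- The value on a matrix and on the matrix with renamed indices. -/
theorem reindex {ι κ : Type} [Fintype ι] [Fintype κ] (e : ι ≃ κ) (M : Matrix ι ι T)
    (hM : M * M = M) : θ κ (M.submatrix e.symm e.symm) = θ ι M := by
  refine h.eqv κ ι _ _ (M.submatrix e.symm id) (M.submatrix id e.symm) ?_ hM ?_ ?_
  · rw [Matrix.submatrix_mul_equiv, hM]
  · have := Matrix.submatrix_mul_equiv M M (e.symm : κ → ι) (Equiv.refl ι) (e.symm : κ → ι)
    rw [hM] at this
    exact this
  · have := Matrix.submatrix_mul_equiv M M (id : ι → ι) e.symm (id : ι → ι)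
    rw [hM] at this
    exact this

/-- Pulling back along a multiplicative and additive map. -/
theorem pull {T' : Type} [Ring T'] (f : T' →ₙ+* T) :
    IsDim (fun (ι : Type) [Fintype ι] (M : Matrix ι ι T') => θ ι (M.map f)) where
  eqv ι κ _ _ M N x y hM hN hxy hyx := by
    refine h.eqv ι κ _ _ (x.map f) (y.map f) ?_ ?_ ?_ ?_
    · rw [← Matrix.map_mul, hM]
    · rw [← Matrix.map_mul, hN]
    · rw [← Matrix.map_mul, hxy]
    · rw [← Matrix.map_mul, hyx]
  add ι κ _ _ M N hM hN := by
    rw [fromBlocks_map]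
    rw [← h.add ι κ (M.map f) (N.map f) (by rw [← Matrix.map_mul, hM])
      (by rw [← Matrix.map_mul, hN])]
    congr 2 <;> exact Matrix.map_zero f (map_zero f)

end IsDim

theorem comp_mul {T : Type} [Ring T] {I J L K' : Type} [Fintype J] [Fintype K']
    (M : Matrix I J (Matrix K' K' T)) (N : Matrix J L (Matrix K' K' T)) :
    Matrix.comp I L K' K' T (M * N) = Matrix.comp I J K' K' T M * Matrix.comp J L K' K' T N := by
  ext ⟨i, k⟩ ⟨l, k'⟩
  simp only [Matrix.comp_apply, Matrix.mul_apply, Fintype.sum_prod_type]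
  rw [Matrix.sum_apply]
  refine Finset.sum_congr rfl fun j _ => ?_
  rw [Matrix.mul_apply]

/-- Flattening. -/
theorem IsDim.comp {T : Type} [Ring T] {θ : ∀ (ι : Type) [Fintype ι], Matrix ι ι T → ℕ}
    (h : IsDim θ) (E : Type) [Fintype E] [DecidableEq E] :
    IsDim (fun (ι : Type) [Fintype ι] (M : Matrix ι ι (Matrix E E T)) =>
      θ (ι × E) (Matrix.comp ι ι E E T M)) where
  eqv ι κ _ _ M N x y hM hN hxy hyx := by
    refine h.eqv (ι × E) (κ × E) _ _ (Matrix.comp ι κ E E T x) (Matrix.comp κ ι E E T y) ?_ ?_ ?_ ?_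
    · rw [← comp_mul, hM]
    · rw [← comp_mul, hN]
    · rw [← comp_mul, hxy]
    · rw [← comp_mul, hyx]
  add ι κ _ _ M N hM hN := by
    have hM' : Matrix.comp ι ι E E T M * Matrix.comp ι ι E E T M = Matrix.comp ι ι E E T M := by
      rw [← comp_mul, hM]
    have hN' : Matrix.comp κ κ E E T N * Matrix.comp κ κ E E T N = Matrix.comp κ κ E E T N := by
      rw [← comp_mul, hN]
    change θ ((ι ⊕ κ) × E) (Matrix.comp (ι ⊕ κ) (ι ⊕ κ) E E T (fromBlocks M 0 0 N)) = _
    rw [← h.add _ _ _ _ hM' hN']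
    have h2 : (fromBlocks (Matrix.comp ι ι E E T M) 0 0 (Matrix.comp κ κ E E T N)) *
      (fromBlocks (Matrix.comp ι ι E E T M) 0 0 (Matrix.comp κ κ E E T N)) =
      (fromBlocks (Matrix.comp ι ι E E T M) 0 0 (Matrix.comp κ κ E E T N)) := by
      rw [fromBlocks_multiply]
      simp [hM', hN']
    rw [← h.reindex (Equiv.sumProdDistrib ι κ E).symm _ h2]
    congr 1
    ext ⟨i, e⟩ ⟨j, e'⟩
    rcases i with i | i <;> rcases j with j | j <;>
      simp [Equiv.sumProdDistrib]

/-- Rank data of a ring: rank functions with dual idempotents, through which every additive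
function on idempotent matrices factors. -/
structure RankData (T : Type) [Ring T] (n : ℕ) where
  /-- the rank functions -/
  r : Fin n → ∀ (ι : Type) [Fintype ι], Matrix ι ι T → ℕ
  dim : ∀ a, IsDim (r a)
  /-- the idempotents -/
  p : Fin n → T
  p_idem : ∀ a, p a * p a = p a
  dual : ∀ a b, r b Unit (one1 (p a)) = if a = b then 1 else 0
  span : ∀ θ : (∀ (ι : Type) [Fintype ι], Matrix ι ι T → ℕ), IsDim θ →
    ∀ (ι : Type) [Fintype ι] (M : Matrix ι ι T), M * M = M →
      θ ι M = ∑ a, r a ι M * θ Unit (one1 (p a))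

end Pool.Agent.H63.LP
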