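import Pool.Agent.H63.LP.Rk1

/-!
# Rank data of division rings, matrix rings, products
-/

namespace Pool.Agent.H63.LP

open Matrix

section division

variable {D : Type} [DivisionRing D]

/-- the rank of a matrix over a division ring -/
noncomputable def rk (ι : Type) [Fintype ι] (M : Matrix ι ι D) : ℕ :=
  Module.finrank D (LinearMap.range (Matrix.vecMulLinear M))

theorem rk_le {ι κ : Type} [Fintype ι] [Fintype κ] (M : Matrix ι ι D) (N : Matrix κ κ D)
    (x : Matrix ι κ D) (y : Matrix κ ι D) (h : M = x * N * y) : rk ι M ≤ rk κ N := by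
  have h1 : LinearMap.range (Matrix.vecMulLinear M) ≤
      (LinearMap.range (Matrix.vecMulLinear N)).map (Matrix.vecMulLinear y) := by
    rintro _ ⟨v, rfl⟩
    refine ⟨(v ᵥ* x) ᵥ* N, ⟨v ᵥ* x, rfl⟩, ?_⟩
    change ((v ᵥ* x) ᵥ* N) ᵥ* y = v ᵥ* M
    rw [Matrix.vecMul_vecMul, Matrix.vecMul_vecMul, h, Matrix.mul_assoc]
  exact (Submodule.finrank_mono h1).trans (Submodule.finrank_map_le _ _)

theorem rk_eqv {ι κ : Type} [Fintype ι] [Fintype κ] (M : Matrix ι ι D) (N : Matrix κ κ D)
    (x : Matrix ι κ D) (y : Matrix κ ι D) (hM : M * M = M) (hN : N * N = N) (hxy : x * y = M)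
    (hyx : y * x = N) : rk ι M = rk κ N := by
  refine le_antisymm (rk_le M N x y ?_) (rk_le N M y x ?_)
  · rw [← hyx, ← Matrix.mul_assoc, hxy, Matrix.mul_assoc, hxy, hM]
  · rw [← hxy, ← Matrix.mul_assoc, hyx, Matrix.mul_assoc, hyx, hN]

/-- a product of submodules -/
def submoduleProd {V W : Type} [AddCommGroup V] [AddCommGroup W] [Module D V] [Module D W]
    (p : Submodule D V) (q : Submodule D W) : (p.prod q) ≃ₗ[D] p × q where
  toFun x := (⟨x.1.1, x.2.1⟩, ⟨x.1.2, x.2.2⟩)
  invFun y := ⟨(y.1.1, y.2.1), ⟨y.1.2, y.2.2⟩⟩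
  map_add' _ _ := rfl
  map_smul' _ _ := rfl
  left_inv _ := rfl
  right_inv _ := rfl

theorem rk_add {ι κ : Type} [Fintype ι] [Fintype κ] (M : Matrix ι ι D) (N : Matrix κ κ D) :
    rk (ι ⊕ κ) (fromBlocks M 0 0 N) = rk ι M + rk κ N := by
  let e := LinearEquiv.sumArrowLequivProdArrow ι κ D D
  have h1 : (LinearMap.range (Matrix.vecMulLinear (fromBlocks M 0 0 N))).map
      (e : ((ι ⊕ κ) → D) →ₗ[D] (ι → D) × (κ → D)) =
      (LinearMap.range (Matrix.vecMulLinear M)).prod (LinearMap.range (Matrix.vecMulLinear N)) := by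
    ext ⟨a, b⟩
    constructor
    · rintro ⟨_, ⟨v, rfl⟩, h⟩
      have h2 : v ᵥ* fromBlocks M 0 0 N = Sum.elim ((v ∘ Sum.inl) ᵥ* M) ((v ∘ Sum.inr) ᵥ* N) := by
        rw [Matrix.vecMul_fromBlocks]
        simp
      have h3 : e (v ᵥ* fromBlocks M 0 0 N) = (a, b) := h
      rw [h2] at h3
      have h4 : ((v ∘ Sum.inl) ᵥ* M, (v ∘ Sum.inr) ᵥ* N) = (a, b) := h3
      rw [Prod.mk.injEq] at h4
      exact ⟨⟨_, h4.1⟩, ⟨_, h4.2⟩⟩
    · rintro ⟨⟨v, hv⟩, ⟨w, hw⟩⟩
      refine ⟨_, ⟨Sum.elim v w, rfl⟩, ?_⟩
      change e (Sum.elim v w ᵥ* fromBlocks M 0 0 N) = (a, b)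
      rw [Matrix.vecMul_fromBlocks]
      have hv' : v ᵥ* M = a := hv
      have hw' : w ᵥ* N = b := hw
      simp only [Sum.elim_comp_inl, Sum.elim_comp_inr, Matrix.vecMul_zero, add_zero, zero_add, hv',
        hw']
      rfl
  have h5 : Module.finrank D (LinearMap.range (Matrix.vecMulLinear (fromBlocks M 0 0 N))) =
      Module.finrank D ((LinearMap.range (Matrix.vecMulLinear M)).prod
        (LinearMap.range (Matrix.vecMulLinear N))) := by
    rw [← h1]
    exact (LinearEquiv.finrank_map_eq e _).symm
  unfold rk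
  rw [h5]
  rw [(submoduleProd _ _).finrank_eq, Module.finrank_prod]

theorem rk_dim : IsDim (fun (ι : Type) [Fintype ι] (M : Matrix ι ι D) => rk ι M) where
  eqv _ _ _ _ M N x y hM hN hxy hyx := rk_eqv M N x y hM hN hxy hyx
  add _ _ _ _ M N _ _ := rk_add M N

theorem rk_one : rk Unit (one1 (1 : D)) = 1 := by
  unfold rk
  have h1 : LinearMap.range (Matrix.vecMulLinear (one1 (1 : D))) = ⊤ := by
    rw [LinearMap.range_eq_top]
    intro v
    refine ⟨v, ?_⟩
    have : one1 (1 : D) = 1 := by
      ext; simp [one1]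
    change v ᵥ* one1 (1 : D) = v
    rw [this, Matrix.vecMul_one]
  rw [h1, finrank_top, Module.finrank_fintype_fun_eq_card, Fintype.card_unit]

/-- An idempotent matrix over a division ring is equivalent to an identity matrix. -/
theorem exists_eqv_one {ι : Type} [Fintype ι] (M : Matrix ι ι D) (hM : M * M = M) :
    ∃ (x : Matrix (Fin (rk ι M)) ι D) (y : Matrix ι (Fin (rk ι M)) D), x * y = 1 ∧ y * x = M := by
  classical
  let b : Module.Basis (Fin (rk ι M)) D (LinearMap.range (Matrix.vecMulLinear M)) :=
    Module.finBasis D _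
  let L : (ι → D) →ₗ[D] (Fin (rk ι M) → D) :=
    b.equivFun.toLinearMap ∘ₗ (Matrix.vecMulLinear M).rangeRestrict
  let y : Matrix ι (Fin (rk ι M)) D := fun j => L (Pi.single j 1)
  let x : Matrix (Fin (rk ι M)) ι D := fun i => (b i : ι → D)
  have hy : ∀ v : ι → D, v ᵥ* y = L v := by
    intro v
    conv_rhs => rw [← Finset.univ_sum_single v]
    rw [map_sum]
    ext k
    rw [Finset.sum_apply]
    simp only [Matrix.vecMul, dotProduct]
    refine Finset.sum_congr rfl fun j _ => ?_
    have : (Pi.single j (v j) : ι → D) = v j • Pi.single j 1 := by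
      rw [← Pi.single_smul, smul_eq_mul, mul_one]
    rw [this, map_smul]
    rfl
  have hr : ∀ v : LinearMap.range (Matrix.vecMulLinear M), (v : ι → D) ᵥ* M = v := by
    rintro ⟨_, ⟨v, rfl⟩⟩
    change (v ᵥ* M) ᵥ* M = v ᵥ* M
    rw [Matrix.vecMul_vecMul, hM]
  refine ⟨x, y, ?_, ?_⟩
  · ext i j
    have h1 : (x * y) i = (b i : ι → D) ᵥ* y := rfl
    rw [show (x * y) i j = ((x * y) i) j from rfl, h1, hy]
    have h2 : (Matrix.vecMulLinear M).rangeRestrict (b i : ι → D) = b i :=
      Subtype.ext (hr (b i))
    change b.equivFun ((Matrix.vecMulLinear M).rangeRestrict (b i : ι → D)) j = _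
    rw [h2, Module.Basis.equivFun_self, Matrix.one_apply]
  · ext j l
    have h1 : (y * x) j = (L (Pi.single j 1)) ᵥ* x := rfl
    have h2 : (L (Pi.single j 1)) ᵥ* x =
        ((b.equivFun.symm (L (Pi.single j 1)) : LinearMap.range (Matrix.vecMulLinear M)) : ι → D)
        := by
      rw [Module.Basis.equivFun_symm_apply]
      ext k
      simp only [Matrix.vecMul, dotProduct, AddSubmonoidClass.coe_finsetSum, Finset.sum_apply]
      rfl
    rw [show (y * x) j l = ((y * x) j) l from rfl, h1, h2]
    change ((b.equivFun.symm (b.equivFun ((Matrix.vecMulLinear M).rangeRestrict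
      (Pi.single j 1)))) : ι → D) l = _
    rw [LinearEquiv.symm_apply_apply]
    change (Pi.single j 1 ᵥ* M) l = _
    rw [Matrix.single_one_vecMul]
    rfl

theorem rk_span (θ : ∀ (ι : Type) [Fintype ι], Matrix ι ι D → ℕ) (h : IsDim θ) (ι : Type)
    [Fintype ι] (M : Matrix ι ι D) (hM : M * M = M) :
    θ ι M = rk ι M * θ Unit (one1 1) := by
  obtain ⟨x, y, hxy, hyx⟩ := exists_eqv_one M hM
  rw [h.eqv ι (Fin (rk ι M)) M 1 y x hM (one_mul 1) hyx hxy, ← Matrix.diagonal_one,
    h.diagonal _ (fun _ => one_mul 1), Finset.sum_const, Finset.card_univ, Fintype.card_fin,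
    smul_eq_mul]

/-- Rank data of a division ring. -/
noncomputable def RankData.division (D : Type) [DivisionRing D] : RankData D 1 where
  r _ ι _ M := rk ι M
  dim _ := rk_dim
  p _ := 1
  p_idem _ := one_mul 1
  dual a b := by rw [if_pos (Subsingleton.elim a b)]; exact rk_one
  span θ h ι _ M hM := by
    rw [Fin.sum_univ_one]
    exact rk_span θ h ι M hM

end division

/-- Rank data of a matrix ring. -/
noncomputable def RankData.matrix {T : Type} [Ring T] {n : ℕ} (R : RankData T n) (d : ℕ)
    [NeZero d] : RankData (Matrix (Fin d) (Fin d) T) n where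
  r a ι _ M := R.r a (ι × Fin d) (Matrix.comp ι ι (Fin d) (Fin d) T M)
  dim a := (R.dim a).comp (Fin d)
  p a := Matrix.single 0 0 (R.p a)
  p_idem a := by rw [Matrix.single_mul_single_same, R.p_idem]
  dual a b := by
    rw [← R.dual a b]
    have h1 : Matrix.comp Unit Unit (Fin d) (Fin d) T (one1 (Matrix.single 0 0 (R.p a))) =
        Matrix.single ((), 0) ((), 0) (R.p a) := by
      ext ⟨_, i⟩ ⟨_, j⟩
      simp [one1, Matrix.single_apply]
    rw [h1]
    exact (R.dim b).single _ _ (R.p_idem a)
  span θ h ι _ M hM := by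
    let s : T →ₙ+* Matrix (Fin d) (Fin d) T :=
      { toFun := fun c => Matrix.single 0 0 c
        map_mul' := fun a b => by rw [Matrix.single_mul_single_same]
        map_zero' := Matrix.single_zero _ _
        map_add' := fun a b => Matrix.single_add _ _ _ _ }
    have hc : Matrix.comp ι ι (Fin d) (Fin d) T M * Matrix.comp ι ι (Fin d) (Fin d) T M =
        Matrix.comp ι ι (Fin d) (Fin d) T M := by rw [← comp_mul, hM]
    have h1 := R.span _ (h.pull s) (ι × Fin d) (Matrix.comp ι ι (Fin d) (Fin d) T M) hc
    have h2 : θ ι M = θ (ι × Fin d) ((Matrix.comp ι ι (Fin d) (Fin d) T M).map s) := by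
      refine h.eqv ι (ι × Fin d) _ _ (fun i p => M i p.1 * Matrix.single p.2 0 1)
        (fun p j => Matrix.single 0 p.2 1 * M p.1 j) hM ?_ ?_ ?_
      · rw [← Matrix.map_mul, hc]
      · ext1 i j
        rw [Matrix.mul_apply, Fintype.sum_prod_type]
        have h3 : ∀ l : ι, ∑ k : Fin d, M i l * Matrix.single k 0 1 * (Matrix.single 0 k 1 * M l j) =
            M i l * M l j := by
          intro l
          have h4 : ∀ k : Fin d, M i l * Matrix.single k 0 1 * (Matrix.single 0 k 1 * M l j) =
              M i l * (Matrix.single k k (1 : T) * M l j) := by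
            intro k
            rw [Matrix.mul_assoc, ← Matrix.mul_assoc (Matrix.single k 0 1),
              Matrix.single_mul_single_same, one_mul]
          rw [Finset.sum_congr rfl fun k _ => h4 k, ← Finset.mul_sum, ← Finset.sum_mul]
          have h5 : ∑ k : Fin d, Matrix.single k k (1 : T) = 1 := by
            rw [← Matrix.diagonal_one]
            ext a b
            rw [Matrix.sum_apply]
            by_cases hab : a = b
            · subst hab
              rw [Matrix.diagonal_apply_eq, Finset.sum_eq_single a]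
              · rw [Matrix.single_apply_same]
              · intro c _ hc
                rw [Matrix.single_apply_of_row_ne hc]
              · intro h; exact absurd (Finset.mem_univ _) h
            · rw [Matrix.diagonal_apply_ne _ hab, Finset.sum_eq_zero]
              intro c _
              by_cases hc : c = a
              · subst hc
                rw [Matrix.single_apply_of_col_ne _ _ hab]
              · rw [Matrix.single_apply_of_row_ne hc]
          rw [h5, one_mul]
        rw [Finset.sum_congr rfl fun l _ => h3 l, ← Matrix.mul_apply, hM]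
      · ext1 ⟨i, k⟩ ⟨j, l⟩
        rw [Matrix.mul_apply, Matrix.map_apply, Matrix.comp_apply]
        have h3 : ∀ m : ι, Matrix.single 0 k 1 * M i m * (M m j * Matrix.single l 0 1) =
            Matrix.single 0 k 1 * (M i m * M m j) * Matrix.single l 0 1 := by
          intro m
          simp only [Matrix.mul_assoc]
        rw [Finset.sum_congr rfl fun m _ => h3 m, ← Finset.sum_mul, ← Finset.mul_sum,
          ← Matrix.mul_apply, hM]
        change _ = Matrix.single 0 0 (M i j k l)
        rw [Matrix.single_mul_mul_single]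
        simp
    rw [h2]
    exact h1

/-- Rank data of a finite product. -/
noncomputable def RankData.prod {n : ℕ} {T : Fin n → Type} [∀ i, Ring (T i)]
    (R : ∀ i, RankData (T i) 1) : RankData (Π i, T i) n where
  r i ι _ M := (R i).r 0 ι (M.map (Pi.evalRingHom T i).toNonUnitalRingHom)
  dim i := ((R i).dim 0).pull (Pi.evalRingHom T i).toNonUnitalRingHom
  p i := Pi.single i ((R i).p 0)
  p_idem i := by rw [← Pi.single_mul, (R i).p_idem]
  dual a b := by
    by_cases hab : a = b
    · subst hab
      rw [if_pos rfl]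
      have h1 : (one1 (Pi.single a ((R a).p 0) : Π i, T i)).map
          (Pi.evalRingHom T a).toNonUnitalRingHom = one1 ((R a).p 0) := by
        ext
        exact Pi.single_eq_same _ _
      rw [h1, (R a).dual, if_pos rfl]
    · rw [if_neg hab]
      have h1 : (one1 (Pi.single a ((R a).p 0) : Π i, T i)).map
          (Pi.evalRingHom T b).toNonUnitalRingHom = 0 := by
        ext
        exact Pi.single_eq_of_ne (Ne.symm hab) _
      rw [h1]
      exact ((R b).dim 0).zero Unit
  span θ h ι _ M hM := by
    classical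
    let s : ∀ i, T i →ₙ+* (Π i, T i) := fun i =>
      { toFun := fun c => Pi.single i c
        map_mul' := fun a b => Pi.single_mul i a b
        map_zero' := Pi.single_zero i
        map_add' := fun a b => Pi.single_add i a b }
    let N : ∀ i, Matrix ι ι (T i) := fun i => M.map (Pi.evalRingHom T i).toNonUnitalRingHom
    have hN : ∀ i, N i * N i = N i := by
      intro i
      rw [← Matrix.map_mul, hM]
    have h1 : M = ∑ i, (N i).map (s i) := by
      refine Matrix.ext fun a b => ?_
      rw [Matrix.sum_apply]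
      exact (Finset.univ_sum_single (M a b)).symm
    have h2 : θ ι M = ∑ i, θ ι ((N i).map (s i)) := by
      conv_lhs => rw [h1]
      rw [h.sum]
      · intro i
        rw [← Matrix.map_mul, hN]
      · intro i j hij
        refine Matrix.ext fun a b => ?_
        rw [Matrix.mul_apply]
        refine Finset.sum_eq_zero fun c _ => ?_
        change (Pi.single i (N i a c) : Π i, T i) * Pi.single j (N j c b) = 0
        funext k
        rw [Pi.mul_apply, Pi.zero_apply]
        by_cases hk : k = i
        · subst hk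
          rw [Pi.single_eq_of_ne hij, mul_zero]
        · rw [Pi.single_eq_of_ne hk, zero_mul]
    rw [h2]
    refine Finset.sum_congr rfl fun i _ => ?_
    have h3 := (R i).span _ (h.pull (s i)) ι (N i) (hN i)
    rw [Fin.sum_univ_one] at h3
    exact h3

end Pool.Agent.H63.LP
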